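import Pool.Agent.W5h23.PW.Main3

/-!
# Average weights and perversities
-/

set_option autoImplicit false

open Module Filter Topology

namespace Pool.Agent.W5h23.PW

section defs

variable {𝔾 : Type} [Mul 𝔾] (T : Theory 𝔾)

/-- the sum of the weights: the sum of `a dim gr^W_a gr^P_b` -/
noncomputable def Theory.wt (G : 𝔾) : ℝ := tot (T.W G) (T.P G) fun a _ => a

/-- the sum of the perversities: the sum of `b dim gr^W_a gr^P_b` -/
noncomputable def Theory.pv (G : 𝔾) : ℝ := tot (T.W G) (T.P G) fun _ b => b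

/-- the sum of `max (2 b - a) 0 dim gr^W_a gr^P_b` -/
noncomputable def Theory.over (G : 𝔾) : ℝ :=
  tot (T.W G) (T.P G) fun a b => max (2 * b - a) 0

/-- the sum of `max (a - 2 b) 0 dim gr^W_a gr^P_b` -/
noncomputable def Theory.under (G : 𝔾) : ℝ :=
  tot (T.W G) (T.P G) fun a b => max (a - 2 * b) 0

end defs

variable {𝔾 : Type} [Mul 𝔾] {T : Theory 𝔾}

theorem wt_sub_pv (G : 𝔾) : T.wt G - 2 * T.pv G = T.under G - T.over G := by
  obtain ⟨ι, _, ⟨D⟩⟩ := exists_data T G
  rw [Theory.wt, Theory.pv, Theory.under, Theory.over, tot_eq D.ad, tot_eq D.ad, tot_eq D.ad,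
    tot_eq D.ad, Finset.mul_sum, ← Finset.sum_sub_distrib, ← Finset.sum_sub_distrib]
  refine Finset.sum_congr rfl fun i _ => ?_
  rcases le_total (D.w i : ℝ) (2 * D.p i) with h | h
  · rw [max_eq_right (by linarith), max_eq_left (by linarith)]
    ring
  · rw [max_eq_left (by linarith), max_eq_right (by linarith)]
    ring

theorem disp_eq_add (G : 𝔾) : T.disp G = T.under G + T.over G := by
  obtain ⟨ι, _, ⟨D⟩⟩ := exists_data T G
  rw [Theory.disp, Theory.under, Theory.over, tot_eq D.ad, tot_eq D.ad, tot_eq D.ad,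
    ← Finset.sum_add_distrib]
  refine Finset.sum_congr rfl fun i _ => ?_
  rcases le_total (D.w i : ℝ) (2 * D.p i) with h | h
  · rw [max_eq_right (by linarith), max_eq_left (by linarith), abs_of_nonpos (by linarith)]
    ring
  · rw [max_eq_left (by linarith), max_eq_right (by linarith), abs_of_nonneg (by linarith)]
    ring

theorem over_nonneg (G : 𝔾) : 0 ≤ T.over G := by
  obtain ⟨ι, _, ⟨D⟩⟩ := exists_data T G
  rw [Theory.over, tot_eq D.ad]
  exact Finset.sum_nonneg fun i _ => le_max_right _ _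

theorem under_nonneg (G : 𝔾) : 0 ≤ T.under G := by
  obtain ⟨ι, _, ⟨D⟩⟩ := exists_data T G
  rw [Theory.under, tot_eq D.ad]
  exact Finset.sum_nonneg fun i _ => le_max_right _ _

/-- the difference of the sums on a product -/
theorem diff_mul (G G' : 𝔾) : T.wt (G * G') - 2 * T.pv (G * G') =
    (T.wt G - 2 * T.pv G) * T.dim G' + T.dim G * (T.wt G' - 2 * T.pv G') := by
  obtain ⟨ι, _, ⟨D⟩⟩ := exists_data T G
  obtain ⟨ι', _, ⟨D'⟩⟩ := exists_data T G'
  obtain ⟨E, hw, hp⟩ := prod_data D D'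
  rw [Theory.wt, Theory.pv, Theory.wt, Theory.pv, Theory.wt, Theory.pv, tot_eq D.ad, tot_eq D.ad,
    tot_eq D'.ad, tot_eq D'.ad, tot_eq E.ad, tot_eq E.ad, D.dim_eq, D'.dim_eq,
    Fintype.sum_prod_type, Fintype.sum_prod_type]
  simp only [hw, hp, Nat.cast_add, Finset.sum_add_distrib, Finset.sum_const, Finset.card_univ,
    nsmul_eq_mul, ← Finset.mul_sum]
  ring

theorem diff_pw (G : 𝔾) (m : ℕ) : T.wt (pw G m) - 2 * T.pv (pw G m) =
    (m + 1) * (T.wt G - 2 * T.pv G) * T.dim G ^ m := by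
  induction m with
  | zero => simp [pw]
  | succ m ih =>
    change T.wt (pw G m * G) - 2 * T.pv (pw G m * G) = _
    rw [diff_mul, ih, dim_pw]
    push_cast
    ring

theorem q12_of_wlep {G : 𝔾} (h : ∀ k, T.W G (2 * k + 1) ≤ T.P G k) (h' : T.wt G ≤ 2 * T.pv G) :
    T.Q1 G ∧ T.Q2 G := by
  obtain ⟨ι, _, ⟨D⟩⟩ := exists_data T G
  have h1 : ∀ i, 2 * D.p i ≤ D.w i := by
    intro i
    have h2 : D.b i ∈ T.W G (2 * (D.w i / 2) + 1) := (D.mem_W i _).2 (by omega)
    have h3 := (D.mem_P i _).1 (h _ h2)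
    omega
  rw [Theory.wt, Theory.pv, tot_eq D.ad, tot_eq D.ad, Finset.mul_sum] at h'
  rw [D.q12_iff]
  have h2 : ∀ i ∈ Finset.univ, (2 * (D.p i : ℝ)) ≤ D.w i := fun i _ => by exact_mod_cast h1 i
  have h3 := (Finset.sum_eq_sum_iff_of_le h2).1 (le_antisymm (Finset.sum_le_sum h2) h')
  intro i
  have := h3 i (Finset.mem_univ i)
  exact_mod_cast this.symm

theorem q12_of_plew {G : 𝔾} (h : ∀ k, T.P G k ≤ T.W G (2 * k)) (h' : 2 * T.pv G ≤ T.wt G) :
    T.Q1 G ∧ T.Q2 G := by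
  obtain ⟨ι, _, ⟨D⟩⟩ := exists_data T G
  have h1 : ∀ i, D.w i ≤ 2 * D.p i := by
    intro i
    have h2 : D.b i ∈ T.P G (D.p i) := (D.mem_P i _).2 le_rfl
    exact (D.mem_W i _).1 (h _ h2)
  rw [Theory.wt, Theory.pv, tot_eq D.ad, tot_eq D.ad, Finset.mul_sum] at h'
  rw [D.q12_iff]
  have h2 : ∀ i ∈ Finset.univ, (D.w i : ℝ) ≤ 2 * D.p i := fun i _ => by exact_mod_cast h1 i
  have h3 := (Finset.sum_eq_sum_iff_of_le h2).1 (le_antisymm (Finset.sum_le_sum h2) h')
  intro i
  have := h3 i (Finset.mem_univ i)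
  exact_mod_cast this

theorem sums_eq {G : 𝔾} (h : T.Q1 G ∧ T.Q2 G) :
    T.wt G = 2 * T.pv G ∧ T.over G = 0 ∧ T.under G = 0 := by
  have h1 := disp_zero h
  rw [disp_eq_add] at h1
  have h2 := over_nonneg (T := T) G
  have h3 := under_nonneg (T := T) G
  have h4 := wt_sub_pv (T := T) G
  refine ⟨by linarith, by linarith, by linarith⟩

theorem le_zero {r : ℕ} (hr : 0 < r) {g : ℕ → ℝ}
    (hg : Tendsto (fun n => g n / n) atTop (𝓝 0)) {x : ℝ}
    (h : ∀ m : ℕ, (m + 1) * x ≤ g ((m + 1) * r)) : x ≤ 0 := by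
  have h1 : Tendsto (fun m : ℕ => (m + 1) * r) atTop atTop := by
    refine tendsto_atTop_mono (fun m => ?_) tendsto_id
    change m ≤ (m + 1) * r
    nlinarith
  have h2 := hg.comp h1
  have hr' : (0 : ℝ) < r := by exact_mod_cast hr
  have h3 : x / r ≤ 0 := by
    refine ge_of_tendsto' h2 fun m => ?_
    change x / r ≤ g ((m + 1) * r) / (((m + 1) * r : ℕ) : ℝ)
    have h4 : (0 : ℝ) < (m : ℝ) + 1 := by positivity
    push_cast
    rw [div_le_div_iff₀ hr' (by positivity)]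
    have := h m
    nlinarith
  by_contra hx
  push Not at hx
  exact absurd h3 (not_le.2 (div_pos hx hr'))

/-- an approximate inequality of the averages is an inequality -/
theorem diff_nonpos {r : 𝔾 → ℕ} (hr0 : ∀ G, 0 < r G) (hr : ∀ G G', r (G * G') = r G + r G')
    {g : ℕ → ℝ} (hg : Tendsto (fun n => g n / n) atTop (𝓝 0))
    (h : ∀ G, T.wt G - 2 * T.pv G ≤ g (r G) * T.dim G) (G : 𝔾) : T.wt G - 2 * T.pv G ≤ 0 := by
  have hd := dim_pos (T := T) G
  have h1 : (T.wt G - 2 * T.pv G) / T.dim G ≤ 0 := by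
    refine le_zero (hr0 G) hg fun m => ?_
    have h2 := h (pw G m)
    rw [diff_pw, rank_pw hr, dim_pw] at h2
    have h3 : (0 : ℝ) < T.dim G ^ (m + 1) := by positivity
    refine le_of_mul_le_mul_right (a := T.dim G ^ (m + 1)) ?_ h3
    refine le_trans (le_of_eq ?_) h2
    rw [pow_succ]
    field_simp
  by_contra hx
  push Not at hx
  exact absurd h1 (not_le.2 (div_pos hx hd))

theorem diff_nonneg {r : 𝔾 → ℕ} (hr0 : ∀ G, 0 < r G) (hr : ∀ G G', r (G * G') = r G + r G')
    {g : ℕ → ℝ} (hg : Tendsto (fun n => g n / n) atTop (𝓝 0))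
    (h : ∀ G, 2 * T.pv G - T.wt G ≤ g (r G) * T.dim G) (G : 𝔾) : 0 ≤ T.wt G - 2 * T.pv G := by
  have hd := dim_pos (T := T) G
  have h1 : (2 * T.pv G - T.wt G) / T.dim G ≤ 0 := by
    refine le_zero (hr0 G) hg fun m => ?_
    have h2 := h (pw G m)
    have h4 : 2 * T.pv (pw G m) - T.wt (pw G m) =
        (m + 1) * (2 * T.pv G - T.wt G) * T.dim G ^ m := by
      have := diff_pw (T := T) G m
      linear_combination -this
    rw [h4, rank_pw hr, dim_pw] at h2
    have h3 : (0 : ℝ) < T.dim G ^ (m + 1) := by positivity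
    refine le_of_mul_le_mul_right (a := T.dim G ^ (m + 1)) ?_ h3
    refine le_trans (le_of_eq ?_) h2
    rw [pow_succ]
    field_simp
  by_contra hx
  push Not at hx
  exact absurd h1 (not_le.2 (div_pos (by linarith) hd))

theorem sqrt_to_lin {f : ℕ → ℝ} (hf : Tendsto (fun n => f n / √n) atTop (𝓝 0)) :
    Tendsto (fun n => f n / n) atTop (𝓝 0) := by
  have h1 : Tendsto (fun n : ℕ => (√n)⁻¹) atTop (𝓝 0) :=
    tendsto_inv_atTop_zero.comp (Real.tendsto_sqrt_atTop.comp tendsto_natCast_atTop_atTop)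
  have h2 := hf.mul h1
  rw [zero_mul] at h2
  refine h2.congr fun n => ?_
  rw [div_mul_eq_mul_div, ← div_eq_mul_inv, div_div, Real.mul_self_sqrt (Nat.cast_nonneg n)]

/-- the positive part and the averages -/
theorem of_over {r : 𝔾 → ℕ} (hr0 : ∀ G, 0 < r G) (hr : ∀ G G', r (G * G') = r G + r G')
    {f g : ℕ → ℝ} (hf : Tendsto (fun n => f n / √n) atTop (𝓝 0))
    (hg : Tendsto (fun n => g n / n) atTop (𝓝 0))
    (h1 : ∀ G, T.over G ≤ f (r G) * T.dim G)
    (h2 : ∀ G, T.wt G - 2 * T.pv G ≤ g (r G) * T.dim G) (G : 𝔾) : T.Q1 G ∧ T.Q2 G := by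
  have h3 := diff_nonpos hr0 hr hg h2
  have h4 := diff_nonneg (T := T) hr0 hr (sqrt_to_lin hf) fun G => by
    have := wt_sub_pv (T := T) G
    have := under_nonneg (T := T) G
    have := h1 G
    linarith
  refine of_disp (g := fun n => 2 * f n) hr0 hr ?_ (fun G => ?_) G
  · have := hf.const_mul 2
    rw [mul_zero] at this
    exact this.congr fun n => (mul_div_assoc _ _ _).symm
  · have h5 := wt_sub_pv (T := T) G
    have h6 := disp_eq_add (T := T) G
    have h7 := h1 G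
    have h8 := h3 G
    have h9 := h4 G
    have h10 : T.disp G = 2 * T.over G := by linarith
    rw [h10]
    linarith

theorem of_under {r : 𝔾 → ℕ} (hr0 : ∀ G, 0 < r G) (hr : ∀ G G', r (G * G') = r G + r G')
    {f g : ℕ → ℝ} (hf : Tendsto (fun n => f n / √n) atTop (𝓝 0))
    (hg : Tendsto (fun n => g n / n) atTop (𝓝 0))
    (h1 : ∀ G, T.under G ≤ f (r G) * T.dim G)
    (h2 : ∀ G, 2 * T.pv G - T.wt G ≤ g (r G) * T.dim G) (G : 𝔾) : T.Q1 G ∧ T.Q2 G := by
  have h3 := diff_nonneg hr0 hr hg h2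
  have h4 := diff_nonpos (T := T) hr0 hr (sqrt_to_lin hf) fun G => by
    have := wt_sub_pv (T := T) G
    have := over_nonneg (T := T) G
    have := h1 G
    linarith
  refine of_disp (g := fun n => 2 * f n) hr0 hr ?_ (fun G => ?_) G
  · have := hf.const_mul 2
    rw [mul_zero] at this
    exact this.congr fun n => (mul_div_assoc _ _ _).symm
  · have h5 := wt_sub_pv (T := T) G
    have h6 := disp_eq_add (T := T) G
    have h7 := h1 G
    have h8 := h3 G
    have h9 := h4 G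
    have h10 : T.disp G = 2 * T.under G := by linarith
    rw [h10]
    linarith

end Pool.Agent.W5h23.PW
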