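import Pool.Agent.W5h23.PW.Main3

/-!
# One middle step of the filtrations suffices
-/

set_option autoImplicit false

open Module Filter Topology

namespace Pool.Agent.W5h23.PW

variable {𝔾 : Type} [Mul 𝔾] {T : Theory 𝔾}

/-- the group `T0` has classes of every perversity up to `s0` and satisfies `P = W` -/
theorem torus_elem {T0 : 𝔾} {ι : Type} [Fintype ι] (D : Data T T0 ι) (hq : T.Q1 T0 ∧ T.Q2 T0)
    {s0 : ℕ} (h : ∀ j < s0, T.P T0 j ≠ T.P T0 (j + 1)) :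
    ∀ j ≤ s0, ∃ i, D.w i = 2 * j ∧ D.p i = j := by
  have h1 := D.q12_iff.1 hq
  intro j hj
  rcases Nat.eq_zero_or_pos j with rfl | h0
  · obtain ⟨i, hi, hi'⟩ := D.exists_unit
    exact ⟨i, hi, hi'⟩
  · obtain ⟨j, rfl⟩ : ∃ l, j = l + 1 := ⟨j - 1, by omega⟩
    by_contra hcon
    push Not at hcon
    apply h j (by omega)
    refine le_antisymm (T.monoP T0 (Nat.le_succ _)) ?_
    intro x hx
    rw [D.ad.memP] at hx ⊢
    intro i hi
    have h2 := hx i hi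
    have h3 : D.p i ≠ j + 1 := fun h4 => hcon i (by rw [h1 i, h4]) h4
    omega

theorem torus_pow {ι : Type} {w p : ι → ℕ} {s0 : ℕ}
    (h : ∀ j ≤ s0, ∃ i, w i = 2 * j ∧ p i = j) :
    ∀ m j : ℕ, j ≤ (m + 1) * s0 → ∃ x : Wd ι m, sm w m x = 2 * j ∧ sm p m x = j := by
  intro m
  induction m with
  | zero =>
    intro j hj
    exact h j (by simpa using hj)
  | succ m ih =>
    intro j hj
    have h1 : (m + 1 + 1) * s0 = (m + 1) * s0 + s0 := by ring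
    obtain ⟨x, hx, hx'⟩ := ih (min j ((m + 1) * s0)) (min_le_right _ _)
    obtain ⟨i, hi, hi'⟩ := h (j - min j ((m + 1) * s0)) (by
      rcases le_total j ((m + 1) * s0) with h2 | h2
      · rw [min_eq_left h2]
        omega
      · rw [min_eq_right h2]
        omega)
    refine ⟨(x, i), ?_, ?_⟩
    · change sm w m x + w i = 2 * j
      have : min j ((m + 1) * s0) ≤ j := min_le_left _ _
      omega
    · change sm p m x + p i = j
      have : min j ((m + 1) * s0) ≤ j := min_le_left _ _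
      omega

/-- elements of `G^(m+1) × T0^(n+1)` -/
theorem pad_elem {G T0 : 𝔾} {ι : Type} [Fintype ι] (D : Data T G ι)
    (hq : T.Q1 T0 ∧ T.Q2 T0) {s0 : ℕ} (h : ∀ j < s0, T.P T0 j ≠ T.P T0 (j + 1))
    (i : ι) (m n j : ℕ) (hj : j ≤ (n + 1) * s0) :
    ∃ (κ : Type) (_ : Fintype κ) (F : Data T (pw G m * pw T0 n) κ) (x : κ),
      F.w x = (m + 1) * D.w i + 2 * j ∧ F.p x = (m + 1) * D.p i + j := by
  obtain ⟨ι0, _, ⟨D0⟩⟩ := exists_data T T0
  obtain ⟨E, hE, hE'⟩ := pow_data D m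
  obtain ⟨E0, hE0, hE0'⟩ := pow_data D0 n
  obtain ⟨F, hF, hF'⟩ := prod_data E E0
  obtain ⟨y, hy, hy'⟩ := torus_pow (torus_elem D0 hq h) n j hj
  refine ⟨_, inferInstance, F, (cst i m, y), ?_, ?_⟩
  · rw [hF, hE, hE0, sm_cst, hy]
  · rw [hF', hE', hE0', sm_cst, hy']

section

variable {T0 : 𝔾} (hq : T.Q1 T0 ∧ T.Q2 T0) {s : 𝔾 → ℕ}
  (hs : ∀ G G', s (G * G') = s G + s G') (hs0 : 0 < s T0)
  (h : ∀ j < s T0, T.P T0 j ≠ T.P T0 (j + 1)) {k e : ℕ → ℕ} {𝒩 : Set ℕ}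
  (hk : ∀ A, ∃ N ∈ 𝒩, s T0 ∣ N ∧ A * (e N + 1) ≤ k N ∧ k N + A * (e N + 1) ≤ N)

include hq hs hs0 h hk in
/-- the padded elements -/
theorem pad (G : 𝔾) : ∃ (m : ℕ) (H : 𝔾), s H ∈ 𝒩 ∧ 2 * e (s H) < m ∧ (m + 1) * s G ≤ k (s H) ∧
    ∀ {ι : Type} [Fintype ι] (D : Data T G ι) (i : ι) (j : ℕ), j ≤ k (s H) →
      ∃ (κ : Type) (_ : Fintype κ) (F : Data T H κ) (x : κ),
        F.w x = (m + 1) * D.w i + 2 * j ∧ F.p x = (m + 1) * D.p i + j := by
  obtain ⟨N, hN, ⟨q, hq'⟩, h1, h2⟩ := hk (2 * s T0 * (s G + 1))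
  obtain ⟨m, hm⟩ : ∃ m, m + 1 = s T0 * (2 * e N + 2) :=
    ⟨s T0 * (2 * e N + 2) - 1, by
      have : 0 < s T0 * (2 * e N + 2) := by positivity
      omega⟩
  have h3 : 2 * s T0 * (s G + 1) * (e N + 1) = (m + 1) * s G + (m + 1) := by
    rw [hm]
    ring
  have h4 : 2 * e N + 2 ≤ m + 1 := by
    rw [hm]
    exact Nat.le_mul_of_pos_left _ hs0
  have h5 : (m + 1) * s G = s T0 * ((2 * e N + 2) * s G) := by
    rw [hm]
    ring
  have h6 : s T0 * ((2 * e N + 2) * s G) < s T0 * q := by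
    rw [← hq', ← h5]
    omega
  have h7 : (2 * e N + 2) * s G < q := lt_of_mul_lt_mul_left h6 (Nat.zero_le _)
  obtain ⟨n, hn⟩ : ∃ n, q = (2 * e N + 2) * s G + (n + 1) :=
    ⟨q - (2 * e N + 2) * s G - 1, by omega⟩
  have h8 : N = (m + 1) * s G + (n + 1) * s T0 := by
    rw [hq', hn, h5]
    ring
  have hS : s (pw G m * pw T0 n) = N := by
    rw [hs, rank_pw hs, rank_pw hs, ← h8]
  refine ⟨m, pw G m * pw T0 n, by rw [hS]; exact hN, by rw [hS]; omega,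
    by rw [hS]; omega, ?_⟩
  intro ι _ D i j hj
  refine pad_elem D hq h i m n j ?_
  rw [hS] at hj
  omega

variable (htW : ∀ G, T.W G (2 * s G) = ⊤) (htP : ∀ G, T.P G (s G) = ⊤)

include hq hs hs0 h hk htW in
theorem wlep_of_step
    (hst : ∀ G, s G ∈ 𝒩 → T.W G (2 * k (s G)) ≤ T.P G (k (s G) + e (s G)))
    (G : 𝔾) (l : ℕ) : T.W G (2 * l + 1) ≤ T.P G l := by
  obtain ⟨ι, _, ⟨D⟩⟩ := exists_data T G
  obtain ⟨m, H, hN, hm, hκ, hpad⟩ := pad hq hs hs0 h hk G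
  have key : ∀ i, 2 * D.p i ≤ D.w i := by
    intro i
    by_contra hcon
    rw [not_le] at hcon
    have hw : D.w i ≤ 2 * s G := (D.mem_W i _).1 (by rw [htW]; trivial)
    have h2 : (m + 1) * D.w i ≤ (m + 1) * (2 * s G) := Nat.mul_le_mul_left _ hw
    have h3 : (m + 1) * (2 * s G) = 2 * ((m + 1) * s G) := by ring
    obtain ⟨κ, _, F, x, hx, hx'⟩ := hpad D i (k (s H) - ((m + 1) * D.w i + 1) / 2)
      (Nat.sub_le _ _)
    have h4 : F.b x ∈ T.W H (2 * k (s H)) := (F.mem_W _ _).2 (by omega)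
    have h5 := (F.mem_P _ _).1 (hst H hN h4)
    have h6 : (m + 1) * (D.w i + 1) ≤ (m + 1) * (2 * D.p i) := Nat.mul_le_mul_left _ hcon
    have h7 : (m + 1) * (D.w i + 1) = (m + 1) * D.w i + (m + 1) := by ring
    have h8 : (m + 1) * (2 * D.p i) = 2 * ((m + 1) * D.p i) := by ring
    omega
  intro x hx
  rw [D.ad.memW] at hx
  rw [D.ad.memP]
  intro i hi
  have h3 := hx i hi
  have h4 := key i
  omega

include hq hs hs0 h hk htP in
theorem plew_of_step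
    (hst : ∀ G, s G ∈ 𝒩 → T.P G (k (s G)) ≤ T.W G (2 * (k (s G) + e (s G))))
    (G : 𝔾) (l : ℕ) : T.P G l ≤ T.W G (2 * l) := by
  obtain ⟨ι, _, ⟨D⟩⟩ := exists_data T G
  obtain ⟨m, H, hN, hm, hκ, hpad⟩ := pad hq hs hs0 h hk G
  have key : ∀ i, D.w i ≤ 2 * D.p i := by
    intro i
    by_contra hcon
    rw [not_le] at hcon
    have hp : D.p i ≤ s G := (D.mem_P i _).1 (by rw [htP]; trivial)
    have h2 : (m + 1) * D.p i ≤ (m + 1) * s G := Nat.mul_le_mul_left _ hp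
    obtain ⟨κ, _, F, x, hx, hx'⟩ := hpad D i (k (s H) - (m + 1) * D.p i)
      (Nat.sub_le _ _)
    have h4 : F.b x ∈ T.P H (k (s H)) := (F.mem_P _ _).2 (by omega)
    have h5 := (F.mem_W _ _).1 (hst H hN h4)
    have h6 : (m + 1) * (2 * D.p i + 1) ≤ (m + 1) * D.w i := Nat.mul_le_mul_left _ hcon
    have h7 : (m + 1) * (2 * D.p i + 1) = 2 * ((m + 1) * D.p i) + (m + 1) := by ring
    omega
  intro x hx
  rw [D.ad.memP] at hx
  rw [D.ad.memW]
  intro i hi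
  have h3 := hx i hi
  have h4 := key i
  omega

/-- the two inclusions together -/
theorem q12_of_both {G : 𝔾} (h1 : ∀ l, T.W G (2 * l + 1) ≤ T.P G l)
    (h2 : ∀ l, T.P G l ≤ T.W G (2 * l)) : T.Q1 G ∧ T.Q2 G :=
  ⟨fun l => le_antisymm ((h1 l).trans (h2 l)) (T.monoW G (Nat.le_succ _)),
    fun l => le_antisymm ((T.monoW G (Nat.le_succ _)).trans (h1 l)) (h2 l)⟩

end

end Pool.Agent.W5h23.PW
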