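import Pool.Agent.W5h23.PW.Main2

/-!
# `P = W` for all groups of a class: approximate and average forms
-/

set_option autoImplicit false

open Filter Topology

namespace Pool.Agent.W5h23.PW

variable {𝔾 : Type} [Mul 𝔾] {T : Theory 𝔾}

theorem rank_pw {r : 𝔾 → ℕ} (hr : ∀ G G', r (G * G') = r G + r G') (G : 𝔾) (m : ℕ) :
    r (pw G m) = (m + 1) * r G := by
  induction m with
  | zero => simp [pw]
  | succ m ih =>
    change r (pw G m * G) = _
    rw [hr, ih]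
    ring

theorem q12_of_q2 (h : ∀ G, T.Q2 G) (G : 𝔾) : T.Q1 G ∧ T.Q2 G := by
  have h1 := (q2_mul G G).1 (h (G * G))
  exact ⟨h1.2.2.elim id id, h1.1⟩

omit [Mul 𝔾] in
theorem rank_tendsto {r : 𝔾 → ℕ} (hr0 : ∀ G, 0 < r G) (G : 𝔾) :
    Tendsto (fun m : ℕ => (m + 1) * r G) atTop atTop := by
  refine tendsto_atTop_mono (fun m => ?_) tendsto_id
  have := hr0 G
  change m ≤ (m + 1) * r G
  nlinarith

omit [Mul 𝔾] in
theorem exists_m {r : 𝔾 → ℕ} (hr0 : ∀ G, 0 < r G) {e : ℕ → ℕ}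
    (he : Tendsto (fun n => (e n : ℝ) / n) atTop (𝓝 0)) (G : 𝔾) :
    ∃ m, 2 * e ((m + 1) * r G) < m := by
  have h1 := he.comp (rank_tendsto hr0 G)
  have h2 : (0 : ℝ) < 1 / (4 * r G) := by
    have : (0 : ℝ) < r G := by exact_mod_cast hr0 G
    positivity
  obtain ⟨m, hm, hm1⟩ := ((h1.eventually (gt_mem_nhds h2)).and (eventually_ge_atTop 1)).exists
  refine ⟨m, ?_⟩
  change ((e ((m + 1) * r G) : ℝ)) / (((m + 1) * r G : ℕ) : ℝ) < 1 / (4 * r G) at hm
  have h3 : (0 : ℝ) < r G := by exact_mod_cast hr0 G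
  have h4 : (0 : ℝ) < (((m + 1) * r G : ℕ) : ℝ) := by
    push_cast
    positivity
  rw [div_lt_div_iff₀ h4 (by positivity)] at hm
  push_cast at hm
  have h5 : (4 * (e ((m + 1) * r G) : ℝ)) * r G < (m + 1) * r G := by linarith
  have h6 : 4 * (e ((m + 1) * r G) : ℝ) < m + 1 := lt_of_mul_lt_mul_right h5 h3.le
  have h7 : 4 * e ((m + 1) * r G) < m + 1 := by exact_mod_cast h6
  omega

/-- the inclusion of the weight filtration in the perverse filtration improves itself -/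
theorem of_wlep {r : 𝔾 → ℕ} (hr0 : ∀ G, 0 < r G) (hr : ∀ G G', r (G * G') = r G + r G')
    {e : ℕ → ℕ} (he : Tendsto (fun n => (e n : ℝ) / n) atTop (𝓝 0))
    (h : ∀ G k, T.W G (2 * k) ≤ T.P G (k + e (r G))) (G : 𝔾) (k : ℕ) :
    T.W G (2 * k + 1) ≤ T.P G k := by
  obtain ⟨m, hm⟩ := exists_m hr0 he G
  obtain ⟨ι, _, ⟨D⟩⟩ := exists_data T G
  obtain ⟨F, h1, h2⟩ := pow_data D m
  have key : ∀ i, 2 * D.p i ≤ D.w i := by
    intro i
    by_contra hcon
    rw [not_le] at hcon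
    have h3 : F.b (cst i m) ∈ T.W (pw G m) (2 * ((F.w (cst i m) + 1) / 2)) :=
      (F.mem_W _ _).2 (by omega)
    have h4 := h (pw G m) _ h3
    rw [F.mem_P, rank_pw hr, h1, h2, sm_cst, sm_cst] at h4
    have h5 : (m + 1) * (D.w i + 1) ≤ (m + 1) * (2 * D.p i) := Nat.mul_le_mul_left _ hcon
    have h6 : (m + 1) * (D.w i + 1) = (m + 1) * D.w i + (m + 1) := by ring
    have h7 : (m + 1) * (2 * D.p i) = 2 * ((m + 1) * D.p i) := by ring
    omega
  intro x hx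
  rw [D.ad.memW] at hx
  rw [D.ad.memP]
  intro i hi
  have h3 := hx i hi
  have h4 := key i
  omega

/-- the inclusion of the perverse filtration in the weight filtration improves itself -/
theorem of_plew {r : 𝔾 → ℕ} (hr0 : ∀ G, 0 < r G) (hr : ∀ G G', r (G * G') = r G + r G')
    {e : ℕ → ℕ} (he : Tendsto (fun n => (e n : ℝ) / n) atTop (𝓝 0))
    (h : ∀ G k, T.P G k ≤ T.W G (2 * (k + e (r G)))) (G : 𝔾) (k : ℕ) :
    T.P G k ≤ T.W G (2 * k) := by
  obtain ⟨m, hm⟩ := exists_m hr0 he G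
  obtain ⟨ι, _, ⟨D⟩⟩ := exists_data T G
  obtain ⟨F, h1, h2⟩ := pow_data D m
  have key : ∀ i, D.w i ≤ 2 * D.p i := by
    intro i
    by_contra hcon
    rw [not_le] at hcon
    have h3 : F.b (cst i m) ∈ T.P (pw G m) (F.p (cst i m)) := (F.mem_P _ _).2 le_rfl
    have h4 := h (pw G m) _ h3
    rw [F.mem_W, rank_pw hr, h1, h2, sm_cst, sm_cst] at h4
    have h5 : (m + 1) * (2 * D.p i + 1) ≤ (m + 1) * D.w i := Nat.mul_le_mul_left _ hcon
    have h6 : (m + 1) * (2 * D.p i + 1) = 2 * ((m + 1) * D.p i) + (m + 1) := by ring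
    omega
  intro x hx
  rw [D.ad.memP] at hx
  rw [D.ad.memW]
  intro i hi
  have h3 := hx i hi
  have h4 := key i
  omega

theorem of_close {r : 𝔾 → ℕ} (hr0 : ∀ G, 0 < r G) (hr : ∀ G G', r (G * G') = r G + r G')
    {e : ℕ → ℕ} (he : Tendsto (fun n => (e n : ℝ) / n) atTop (𝓝 0))
    (h : ∀ G, T.Close G (e (r G))) (G : 𝔾) : T.Q1 G ∧ T.Q2 G := by
  have h1 := he.comp (rank_tendsto hr0 G)
  have h2 : (0 : ℝ) < 1 / (4 * r G) := by
    have : (0 : ℝ) < r G := by exact_mod_cast hr0 G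
    positivity
  obtain ⟨m, hm, hm1⟩ := ((h1.eventually (gt_mem_nhds h2)).and (eventually_ge_atTop 1)).exists
  refine q12_of_close (m := m) (E := e ((m + 1) * r G)) ?_ ?_
  · change ((e ((m + 1) * r G) : ℝ)) / (((m + 1) * r G : ℕ) : ℝ) < 1 / (4 * r G) at hm
    have h3 : (0 : ℝ) < r G := by exact_mod_cast hr0 G
    have h4 : (0 : ℝ) < (((m + 1) * r G : ℕ) : ℝ) := by
      push_cast
      positivity
    rw [div_lt_div_iff₀ h4 (by positivity)] at hm
    push_cast at hm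
    have h5 : (4 * (e ((m + 1) * r G) : ℝ)) * r G < (m + 1) * r G := by linarith
    have h6 : 4 * (e ((m + 1) * r G) : ℝ) < m + 1 := lt_of_mul_lt_mul_right h5 h3.le
    have h7 : 4 * e ((m + 1) * r G) < m + 1 := by exact_mod_cast h6
    omega
  · rw [← rank_pw hr]
    exact h _

theorem of_agree {r : 𝔾 → ℕ} (hr0 : ∀ G, 0 < r G) (hr : ∀ G G', r (G * G') = r G + r G')
    {g : ℕ → ℝ} (hg : Tendsto (fun n => g n * Real.sqrt n) atTop atTop)
    (h : ∀ G, g (r G) * T.dim G ≤ T.agree G) (G : 𝔾) : T.Q1 G ∧ T.Q2 G := by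
  by_contra hcon
  have h1 := hg.comp (rank_tendsto hr0 G)
  obtain ⟨m, hm⟩ := (h1.eventually (eventually_gt_atTop
    (Real.sqrt (T.dim G * r G)))).exists
  change Real.sqrt (T.dim G * r G) < g ((m + 1) * r G) * Real.sqrt (((m + 1) * r G : ℕ) : ℝ) at hm
  have h2 := (h (pw G m)).trans (agree_le hcon m)
  rw [rank_pw hr] at h2
  have h3 : g ((m + 1) * r G) ≤ Real.sqrt (T.dim G / (2 * ((m : ℝ) + 2))) :=
    le_of_mul_le_mul_right h2 (dim_pos _)
  have hd := dim_pos (T := T) G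
  have h4 : g ((m + 1) * r G) * Real.sqrt (((m + 1) * r G : ℕ) : ℝ) ≤
      Real.sqrt (T.dim G * r G) := by
    refine (mul_le_mul_of_nonneg_right h3 (Real.sqrt_nonneg _)).trans ?_
    rw [← Real.sqrt_mul (by positivity)]
    refine Real.sqrt_le_sqrt ?_
    push_cast
    rw [div_mul_eq_mul_div, div_le_iff₀ (by positivity)]
    have h5 : (0 : ℝ) ≤ r G := Nat.cast_nonneg _
    have h6 : T.dim G * r G * (2 * ((m : ℝ) + 2)) - T.dim G * (((m : ℝ) + 1) * r G) =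
        T.dim G * r G * ((m : ℝ) + 3) := by ring
    have h7 : 0 ≤ T.dim G * r G * ((m : ℝ) + 3) := by positivity
    linarith
  linarith

theorem of_disp {r : 𝔾 → ℕ} (hr0 : ∀ G, 0 < r G) (hr : ∀ G G', r (G * G') = r G + r G')
    {g : ℕ → ℝ} (hg : Tendsto (fun n => g n / Real.sqrt n) atTop (𝓝 0))
    (h : ∀ G, T.disp G ≤ g (r G) * T.dim G) (G : 𝔾) : T.Q1 G ∧ T.Q2 G := by
  by_contra hcon
  have h1 := hg.comp (rank_tendsto hr0 G)
  have hd := dim_pos (T := T) G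
  have hr' : (0 : ℝ) < r G := by exact_mod_cast hr0 G
  have h2 : (0 : ℝ) < 1 / (16 * Real.sqrt (T.dim G * r G)) := by
    have : 0 < Real.sqrt (T.dim G * r G) := Real.sqrt_pos.2 (by positivity)
    positivity
  obtain ⟨m, hm, hm1⟩ := ((h1.eventually (gt_mem_nhds h2)).and
    (eventually_ge_atTop ⌈8 * T.dim G⌉₊)).exists
  have hm2 : 8 * T.dim G ≤ (m : ℝ) + 2 := by
    have h3 : 8 * T.dim G ≤ (⌈8 * T.dim G⌉₊ : ℝ) := Nat.le_ceil _
    have h4 : ((⌈8 * T.dim G⌉₊ : ℕ) : ℝ) ≤ m := by exact_mod_cast hm1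
    linarith
  have h3 := (le_disp hcon m hm2).trans (h (pw G m))
  rw [rank_pw hr] at h3
  have h4 : Real.sqrt (2 * ((m : ℝ) + 2) / T.dim G) / 16 ≤ g ((m + 1) * r G) :=
    le_of_mul_le_mul_right h3 (dim_pos _)
  change g ((m + 1) * r G) / Real.sqrt (((m + 1) * r G : ℕ) : ℝ) <
    1 / (16 * Real.sqrt (T.dim G * r G)) at hm
  have h5 : (0 : ℝ) < (((m + 1) * r G : ℕ) : ℝ) := by
    push_cast
    positivity
  have h6 : 0 < Real.sqrt (((m + 1) * r G : ℕ) : ℝ) := Real.sqrt_pos.2 h5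
  rw [div_lt_iff₀ h6] at hm
  have h7 : 1 / (16 * Real.sqrt (T.dim G * r G)) * Real.sqrt (((m + 1) * r G : ℕ) : ℝ) =
      Real.sqrt (((m : ℝ) + 1) / T.dim G) / 16 := by
    have h8 : Real.sqrt (((m + 1) * r G : ℕ) : ℝ) =
        Real.sqrt (((m : ℝ) + 1) / T.dim G) * Real.sqrt (T.dim G * r G) := by
      rw [← Real.sqrt_mul (by positivity)]
      congr 1
      push_cast
      field_simp
    rw [h8]
    have h9 : 0 < Real.sqrt (T.dim G * r G) := Real.sqrt_pos.2 (by positivity)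
    field_simp
  rw [h7] at hm
  have h8 : Real.sqrt (((m : ℝ) + 1) / T.dim G) ≤ Real.sqrt (2 * ((m : ℝ) + 2) / T.dim G) := by
    refine Real.sqrt_le_sqrt (div_le_div_of_nonneg_right ?_ hd.le)
    have : (0 : ℝ) ≤ m := Nat.cast_nonneg _
    linarith
  linarith

theorem of_odd {c : ℝ} (hc : c < 1 / 2) (h : ∀ G, T.odd G ≤ c * T.dim G) (G : 𝔾) : T.Q1 G := by
  by_contra hcon
  obtain ⟨m, hm⟩ := ((odd_tendsto hcon).eventually (lt_mem_nhds hc)).exists
  rw [lt_div_iff₀ (dim_pos _)] at hm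
  exact absurd (h (pw G m)) (not_le.2 hm)

end Pool.Agent.W5h23.PW
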