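import Mathlib

/-!
# Anticoncentration for powers in the group algebra of the integers
-/

set_option autoImplicit false

open Finset

namespace Pool.Agent.W5h23.PW

theorem central_even (k : ℕ) : (2 * k + 1) * (Nat.centralBinom k) ^ 2 ≤ 16 ^ k := by
  induction k with
  | zero => simp
  | succ k ih =>
    have h1 := Nat.succ_mul_centralBinom_succ k
    have h2 : (k + 1) ^ 2 * ((2 * (k + 1) + 1) * (Nat.centralBinom (k + 1)) ^ 2) ≤
        (k + 1) ^ 2 * 16 ^ (k + 1) := by
      calc (k + 1) ^ 2 * ((2 * (k + 1) + 1) * (Nat.centralBinom (k + 1)) ^ 2)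
          = (2 * k + 3) * ((k + 1) * Nat.centralBinom (k + 1)) ^ 2 := by ring
        _ = (2 * k + 3) * (2 * (2 * k + 1) * Nat.centralBinom k) ^ 2 := by rw [h1]
        _ = 4 * ((2 * k + 3) * (2 * k + 1)) * ((2 * k + 1) * Nat.centralBinom k ^ 2) := by ring
        _ ≤ 4 * (4 * (k + 1) ^ 2) * 16 ^ k := by
          refine Nat.mul_le_mul (Nat.mul_le_mul le_rfl ?_) ih
          nlinarith
        _ = (k + 1) ^ 2 * 16 ^ (k + 1) := by ring
    exact Nat.le_of_mul_le_mul_left h2 (by positivity)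

theorem central (N : ℕ) : (N + 1) * (N.choose (N / 2)) ^ 2 ≤ 4 ^ N := by
  rcases Nat.even_or_odd' N with ⟨k, rfl | rfl⟩
  · have h1 : 2 * k / 2 = k := by omega
    rw [h1, pow_mul]
    exact central_even k
  · have h1 : (2 * k + 1) / 2 = k := by omega
    rw [h1]
    have h2 : Nat.centralBinom (k + 1) = 2 * (2 * k + 1).choose k := by
      rw [Nat.centralBinom_eq_two_mul_choose]
      have h3 : 2 * (k + 1) = (2 * k + 1) + 1 := by ring
      rw [h3, Nat.choose_succ_succ, Nat.choose_symm_half]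
      ring
    have h3 := central_even (k + 1)
    rw [h2] at h3
    have h4 : 4 * ((2 * k + 1 + 1) * ((2 * k + 1).choose k) ^ 2) ≤ 4 * 4 ^ (2 * k + 1) := by
      calc 4 * ((2 * k + 1 + 1) * ((2 * k + 1).choose k) ^ 2)
          ≤ (2 * (k + 1) + 1) * (2 * (2 * k + 1).choose k) ^ 2 := by
            nlinarith [Nat.zero_le ((2 * k + 1).choose k ^ 2)]
        _ ≤ 16 ^ (k + 1) := h3
        _ = 4 * 4 ^ (2 * k + 1) := by
          have : (16 : ℕ) = 4 ^ 2 := by norm_num
          rw [this, ← pow_mul]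
          ring
    omega

theorem central_real (N : ℕ) : ((N.choose (N / 2) : ℕ) : ℝ) ≤ 2 ^ N / Real.sqrt (N + 1) := by
  have h1 := central N
  have hs : 0 < Real.sqrt ((N : ℝ) + 1) := Real.sqrt_pos.2 (by positivity)
  rw [le_div_iff₀ hs]
  refine le_of_sq_le_sq ?_ (by positivity)
  rw [mul_pow, Real.sq_sqrt (by positivity), ← pow_mul, mul_comm N 2, pow_mul]
  have h2 : (((N + 1) * (N.choose (N / 2)) ^ 2 : ℕ) : ℝ) ≤ ((4 ^ N : ℕ) : ℝ) := by
    exact_mod_cast h1
  push_cast at h2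
  norm_num
  linarith

/-- the weighted sum of the central bounds -/
theorem weighted (D : ℕ) (hD : 2 ≤ D) (m : ℕ) :
    ∑ k ∈ range (m + 1), (((D : ℝ) - 2) ^ k * (2 ^ (m - k) / Real.sqrt (((m - k : ℕ) : ℝ) + 1))) *
      (m.choose k : ℝ) ≤ (D : ℝ) ^ m * Real.sqrt (D / (2 * (m + 1))) := by
  have hD' : (0 : ℝ) ≤ (D : ℝ) - 2 := by
    have : (2 : ℝ) ≤ D := by exact_mod_cast hD
    linarith
  have hD0 : (0 : ℝ) < D := by
    have : (2 : ℝ) ≤ D := by exact_mod_cast hD
    linarith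
  let c : ℕ → ℝ := fun k => ((D : ℝ) - 2) ^ k * 2 ^ (m - k) * (m.choose k : ℝ)
  have hc : ∀ k, 0 ≤ c k := fun k => by positivity
  have h1 : ∑ k ∈ range (m + 1), c k = (D : ℝ) ^ m := by
    have h2 := add_pow ((D : ℝ) - 2) 2 m
    rw [sub_add_cancel] at h2
    rw [h2]
  have h3 : ∑ k ∈ range (m + 1), c k / (((m - k : ℕ) : ℝ) + 1) ≤
      (D : ℝ) ^ (m + 1) / (2 * (m + 1)) := by
    have h4 : ∀ k ∈ range (m + 1), c k / (((m - k : ℕ) : ℝ) + 1) =
        (((D : ℝ) - 2) ^ k * 2 ^ (m + 1 - k) * ((m + 1).choose k : ℝ)) / (2 * (m + 1)) := by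
      intro k hk
      have hk' : k ≤ m := Nat.lt_succ_iff.1 (mem_range.1 hk)
      have h5 : (m + 1).choose k * (m + 1 - k) = (m + 1) * m.choose k := by
        have h6 := Nat.choose_mul_succ_eq m k
        rw [Nat.mul_comm (m.choose k)] at h6
        exact h6.symm
      have h7 : m + 1 - k = (m - k) + 1 := by omega
      have h8 : (((m + 1).choose k : ℕ) : ℝ) * (((m - k : ℕ) : ℝ) + 1) =
          ((m : ℝ) + 1) * (m.choose k : ℝ) := by
        rw [h7] at h5
        exact_mod_cast h5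
      have h9 : (((m - k : ℕ) : ℝ) + 1) ≠ 0 := by positivity
      have h10 : (2 * ((m : ℝ) + 1)) ≠ 0 := by positivity
      rw [div_eq_div_iff h9 h10, h7, pow_succ]
      calc c k * (2 * ((m : ℝ) + 1))
          = ((D : ℝ) - 2) ^ k * 2 ^ (m - k) * 2 * (((m : ℝ) + 1) * (m.choose k : ℝ)) := by
            change ((D : ℝ) - 2) ^ k * 2 ^ (m - k) * (m.choose k : ℝ) * (2 * ((m : ℝ) + 1)) = _
            ring
        _ = _ := by rw [← h8]; ring
    rw [sum_congr rfl h4, ← sum_div]
    refine div_le_div_of_nonneg_right ?_ (by positivity)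
    have h5 := add_pow ((D : ℝ) - 2) 2 (m + 1)
    rw [sub_add_cancel] at h5
    rw [h5]
    refine sum_le_sum_of_subset_of_nonneg ?_ (fun k _ _ => by positivity)
    intro k hk
    rw [mem_range] at hk ⊢
    omega
  have h6 : ∀ k ∈ range (m + 1), (((D : ℝ) - 2) ^ k *
      (2 ^ (m - k) / Real.sqrt (((m - k : ℕ) : ℝ) + 1))) * (m.choose k : ℝ) =
      Real.sqrt (c k) * Real.sqrt (c k / (((m - k : ℕ) : ℝ) + 1)) := by
    intro k _
    rw [Real.sqrt_div (hc k)]
    have h7 : Real.sqrt (c k) * (Real.sqrt (c k) / Real.sqrt (((m - k : ℕ) : ℝ) + 1)) =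
        c k / Real.sqrt (((m - k : ℕ) : ℝ) + 1) := by
      rw [← mul_div_assoc, Real.mul_self_sqrt (hc k)]
    rw [h7]
    change _ = ((D : ℝ) - 2) ^ k * 2 ^ (m - k) * (m.choose k : ℝ) / _
    ring
  rw [sum_congr rfl h6]
  have h7 := Real.sum_mul_le_sqrt_mul_sqrt (range (m + 1)) (fun k => Real.sqrt (c k))
    (fun k => Real.sqrt (c k / (((m - k : ℕ) : ℝ) + 1)))
  refine h7.trans ?_
  have h8 : ∑ k ∈ range (m + 1), Real.sqrt (c k) ^ 2 = (D : ℝ) ^ m := by
    rw [← h1]
    exact sum_congr rfl fun k _ => Real.sq_sqrt (hc k)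
  have h9 : ∑ k ∈ range (m + 1), Real.sqrt (c k / (((m - k : ℕ) : ℝ) + 1)) ^ 2 ≤
      (D : ℝ) ^ (m + 1) / (2 * (m + 1)) := by
    refine le_trans (le_of_eq ?_) h3
    exact sum_congr rfl fun k _ => Real.sq_sqrt (div_nonneg (hc k) (by positivity))
  rw [h8]
  calc Real.sqrt ((D : ℝ) ^ m) * Real.sqrt (∑ k ∈ range (m + 1),
        Real.sqrt (c k / (((m - k : ℕ) : ℝ) + 1)) ^ 2)
      ≤ Real.sqrt ((D : ℝ) ^ m) * Real.sqrt ((D : ℝ) ^ (m + 1) / (2 * (m + 1))) :=
        mul_le_mul_of_nonneg_left (Real.sqrt_le_sqrt h9) (Real.sqrt_nonneg _)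
    _ = (D : ℝ) ^ m * Real.sqrt (D / (2 * (m + 1))) := by
      rw [pow_succ, mul_div_assoc, Real.sqrt_mul (by positivity), ← mul_assoc,
        Real.mul_self_sqrt (by positivity)]

variable {ι : Type*}

/-- the generating function of a family of integers -/
noncomputable def gen (s : Finset ι) (d : ι → ℤ) : AddMonoidAlgebra ℝ ℤ :=
  ∑ i ∈ s, AddMonoidAlgebra.single (d i) 1

theorem single_mul_coeff (a : ℤ) (r : ℝ) (y : AddMonoidAlgebra ℝ ℤ) (t : ℤ) :
    (AddMonoidAlgebra.single a r * y).coeff t = r * y.coeff (t - a) :=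
  AddMonoidAlgebra.coeff_single_mul_eq_mul_coeff _ fun m' _ => by omega

theorem gen_mul_le (s : Finset ι) (d : ι → ℤ) (y : AddMonoidAlgebra ℝ ℤ) (M : ℝ)
    (hy : ∀ t, y.coeff t ≤ M) (t : ℤ) : (gen s d * y).coeff t ≤ s.card * M := by
  rw [gen, sum_mul, AddMonoidAlgebra.coeff_sum, Finsupp.finset_sum_apply]
  refine (sum_le_card_nsmul s _ M fun i _ => ?_).trans (le_of_eq (nsmul_eq_mul _ _))
  rw [single_mul_coeff, one_mul]
  exact hy _

theorem gen_pow_mul_le (s : Finset ι) (d : ι → ℤ) (y : AddMonoidAlgebra ℝ ℤ) (M : ℝ)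
    (hy : ∀ t, y.coeff t ≤ M) (k : ℕ) :
    ∀ t : ℤ, (gen s d ^ k * y).coeff t ≤ (s.card : ℝ) ^ k * M := by
  induction k with
  | zero => simpa using hy
  | succ k ih =>
    intro t
    rw [pow_succ', mul_assoc, pow_succ', mul_assoc]
    exact gen_mul_le s d _ _ ih t

theorem two_pow_le (a c : ℤ) (hac : a ≠ c) (N : ℕ) (t : ℤ) :
    ((AddMonoidAlgebra.single a 1 + AddMonoidAlgebra.single c 1 : AddMonoidAlgebra ℝ ℤ) ^ N).coeff t
      ≤ (N.choose (N / 2) : ℝ) := by
  rw [add_pow, AddMonoidAlgebra.coeff_sum, Finsupp.finset_sum_apply]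
  have h1 : ∀ r ∈ range (N + 1), ((AddMonoidAlgebra.single a 1 : AddMonoidAlgebra ℝ ℤ) ^ r *
      AddMonoidAlgebra.single c 1 ^ (N - r) * ((N.choose r : ℕ) : AddMonoidAlgebra ℝ ℤ)).coeff t =
      if r • a + (N - r) • c = t then (N.choose r : ℝ) else 0 := by
    intro r _
    rw [AddMonoidAlgebra.single_pow, AddMonoidAlgebra.single_pow,
      AddMonoidAlgebra.single_mul_single, one_pow, one_pow, one_mul, mul_comm, ← nsmul_eq_mul,
      AddMonoidAlgebra.coeff_smul, Finsupp.smul_apply, AddMonoidAlgebra.coeff_single,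
      Finsupp.single_apply, nsmul_eq_mul]
    split_ifs <;> simp
  rw [sum_congr rfl h1]
  by_cases h : ∃ r ∈ range (N + 1), r • a + (N - r) • c = t
  · obtain ⟨r, hr, hrt⟩ := h
    rw [sum_eq_single r]
    · rw [if_pos hrt]
      exact_mod_cast Nat.choose_le_middle r N
    · intro q hq hqr
      rw [if_neg]
      intro hqt
      apply hqr
      rw [mem_range] at hr hq
      have h2 : r • a + (N - r) • c = q • a + (N - q) • c := hrt.trans hqt.symm
      simp only [nsmul_eq_mul] at h2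
      rw [Nat.cast_sub (by omega), Nat.cast_sub (by omega)] at h2
      have h3 : ((r : ℤ) - q) * (a - c) = 0 := by linear_combination h2
      rcases mul_eq_zero.1 h3 with h4 | h4
      · omega
      · exact absurd (sub_eq_zero.1 h4) hac
    · intro h2
      exact absurd hr h2
  · push Not at h
    rw [sum_eq_zero fun r hr => if_neg (h r hr)]
    positivity

/-- anticoncentration: if the integers `d i` are not all equal, every coefficient of the `m`-th
power of their generating function is at most `D ^ m * sqrt (D / (2 (m + 1)))` -/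
theorem coeff_pow_le [Fintype ι] (d : ι → ℤ) {i j : ι} (hij : d i ≠ d j) (m : ℕ) (t : ℤ) :
    (gen univ d ^ m).coeff t ≤ (Fintype.card ι : ℝ) ^ m *
      Real.sqrt (Fintype.card ι / (2 * (m + 1))) := by
  classical
  have hne : i ≠ j := fun h => hij (by rw [h])
  let s : Finset ι := (univ.erase i).erase j
  have hjs : j ∈ univ.erase i := mem_erase.2 ⟨hne.symm, mem_univ j⟩
  have hs : s.card + 2 = Fintype.card ι := by
    have h1 := card_erase_of_mem hjs
    have h2 := card_erase_of_mem (mem_univ i)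
    have h3 : 2 ≤ (univ : Finset ι).card := by
      rw [← card_pair hne]
      exact card_le_card (subset_univ _)
    rw [card_univ] at h2 h3
    change ((univ.erase i).erase j).card + 2 = _
    omega
  have hg : gen univ d = gen s d + (AddMonoidAlgebra.single (d i) 1 +
      AddMonoidAlgebra.single (d j) 1) := by
    rw [gen, gen, ← add_sum_erase univ _ (mem_univ i), ← add_sum_erase (univ.erase i) _ hjs]
    abel
  have hs2 : (s.card : ℝ) = (Fintype.card ι : ℝ) - 2 := by
    rw [← hs]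
    push_cast
    ring
  rw [hg, add_pow, AddMonoidAlgebra.coeff_sum, Finsupp.finset_sum_apply]
  refine le_trans (sum_le_sum fun k hk => ?_) (weighted (Fintype.card ι) (by omega) m)
  have h1 := gen_pow_mul_le s d _ _ (two_pow_le (d i) (d j) hij (m - k)) k t
  rw [mul_comm, ← nsmul_eq_mul, AddMonoidAlgebra.coeff_smul, Finsupp.smul_apply, nsmul_eq_mul,
    mul_comm]
  refine mul_le_mul_of_nonneg_right (h1.trans ?_) (by positivity)
  rw [hs2]
  refine mul_le_mul_of_nonneg_left (central_real (m - k)) ?_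
  rw [← hs2]
  positivity

end Pool.Agent.W5h23.PW
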