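import Mathlib

/-!
# Two filtrations of a vector space have a common adapted basis
-/

set_option autoImplicit false

open Module

namespace Pool.Agent.W5h23.PW

universe u v

variable {K : Type u} {V : Type v} [Field K] [AddCommGroup V] [Module K V]

/-- the previous step of a filtration -/
def prev (F : ℕ → Submodule K V) : ℕ → Submodule K V
  | 0 => ⊥
  | k + 1 => F k

theorem prev_le {F : ℕ → Submodule K V} (hF : Monotone F) (k : ℕ) : prev F k ≤ F k := by
  cases k with
  | zero => exact bot_le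
  | succ k => exact hF (Nat.le_succ k)

theorem le_prev {F : ℕ → Submodule K V} (hF : Monotone F) {j k : ℕ} (h : j < k) :
    F j ≤ prev F k := by
  cases k with
  | zero => omega
  | succ k => exact hF (Nat.lt_succ_iff.1 h)

/-- a basis adapted to two filtrations -/
structure Adapted {ι : Type*} (W P : ℕ → Submodule K V) (b : Basis ι K V) (w p : ι → ℕ) : Prop where
  memW : ∀ k x, x ∈ W k ↔ ∀ i, b.repr x i ≠ 0 → w i ≤ k
  memP : ∀ k x, x ∈ P k ↔ ∀ i, b.repr x i ≠ 0 → p i ≤ k

variable {W P : ℕ → Submodule K V}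

/-- the sum of the smaller pieces -/
def low (W P : ℕ → Submodule K V) (i : ℕ × ℕ) : Submodule K V :=
  (prev W i.1 ⊓ P i.2) ⊔ (W i.1 ⊓ prev P i.2)

theorem low_le (hW : Monotone W) (hP : Monotone P) (i : ℕ × ℕ) : low W P i ≤ W i.1 ⊓ P i.2 :=
  sup_le (inf_le_inf_right _ (prev_le hW _)) (inf_le_inf_left _ (prev_le hP _))

theorem exists_compl (hW : Monotone W) (hP : Monotone P) :
    ∃ C : ℕ × ℕ → Submodule K V, ∀ i, C i ≤ W i.1 ⊓ P i.2 ∧ Disjoint (C i) (low W P i) ∧
      C i ⊔ low W P i = W i.1 ⊓ P i.2 := by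
  have h : ∀ i : ℕ × ℕ, ∃ C : Submodule K V, C ≤ W i.1 ⊓ P i.2 ∧ Disjoint C (low W P i) ∧
      C ⊔ low W P i = W i.1 ⊓ P i.2 := by
    intro i
    obtain ⟨C, hC⟩ := Submodule.exists_isCompl (low W P i)
    refine ⟨C ⊓ (W i.1 ⊓ P i.2), inf_le_right, ?_, ?_⟩
    · exact (hC.disjoint.symm.mono_left inf_le_left)
    · have h1 := sup_inf_assoc_of_le C (low_le hW hP i)
      rw [sup_comm, ← h1, hC.sup_eq_top, top_inf_eq]
  choose C hC using h
  exact ⟨C, hC⟩

theorem indep {C : ℕ × ℕ → Submodule K V} (hW : Monotone W) (hP : Monotone P)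
    (hC : ∀ i, C i ≤ W i.1 ⊓ P i.2 ∧ Disjoint (C i) (low W P i) ∧
      C i ⊔ low W P i = W i.1 ⊓ P i.2) :
    ∀ (n : ℕ) (s : Finset (ℕ × ℕ)) (f : ℕ × ℕ → V), s.card = n → (∀ i ∈ s, f i ∈ C i) →
      ∑ i ∈ s, f i = 0 → ∀ i ∈ s, f i = 0 := by
  intro n
  induction n with
  | zero =>
    intro s f hs _ _ i hi
    rw [Finset.card_eq_zero] at hs
    subst hs
    simp at hi
  | succ n ih =>
    intro s f hs hf h0
    have hne : s.Nonempty := Finset.card_pos.1 (by omega)
    obtain ⟨i, hi, hmax⟩ := s.exists_max_image (fun j => toLex j) hne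
    have e1 : f i = - ∑ j ∈ s.erase i, f j := by
      rw [eq_neg_iff_add_eq_zero, Finset.add_sum_erase s f hi, h0]
    have e2 : f i ∈ prev W i.1 ⊔ (W i.1 ⊓ prev P i.2) := by
      rw [e1]
      refine neg_mem (Submodule.sum_mem _ fun j hj => ?_)
      obtain ⟨hji, hjs⟩ := Finset.mem_erase.1 hj
      have h1 := hmax j hjs
      have h2 := (hC j).1 (hf j hjs)
      rcases Prod.Lex.toLex_le_toLex.1 h1 with h3 | ⟨h3, h4⟩
      · exact Submodule.mem_sup_left (le_prev hW h3 h2.1)
      · have h5 : j.2 < i.2 := lt_of_le_of_ne h4 fun h6 => hji (Prod.ext h3 h6)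
        refine Submodule.mem_sup_right ⟨?_, le_prev hP h5 h2.2⟩
        rw [← h3]
        exact h2.1
    have e3 : f i ∈ low W P i := by
      obtain ⟨u, hu, v, hv, huv⟩ := Submodule.mem_sup.1 e2
      have h1 : u ∈ P i.2 := by
        have h2 : u = f i - v := by rw [← huv]; abel
        rw [h2]
        exact sub_mem ((hC i).1 (hf i hi)).2 (prev_le hP _ hv.2)
      rw [← huv]
      exact Submodule.add_mem_sup ⟨hu, h1⟩ hv
    have e4 : f i = 0 := Submodule.disjoint_def.1 (hC i).2.1 _ (hf i hi) e3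
    have e5 : ∑ j ∈ s.erase i, f j = 0 := by
      rw [← Finset.add_sum_erase s f hi, e4, zero_add] at h0
      exact h0
    have e6 := ih (s.erase i) f (by rw [Finset.card_erase_of_mem hi]; omega)
      (fun j hj => hf j (Finset.mem_of_mem_erase hj)) e5
    intro j hj
    by_cases hji : j = i
    · rw [hji, e4]
    · exact e6 j (Finset.mem_erase.2 ⟨hji, hj⟩)

theorem indep' {C : ℕ × ℕ → Submodule K V} (hW : Monotone W) (hP : Monotone P)
    (hC : ∀ i, C i ≤ W i.1 ⊓ P i.2 ∧ Disjoint (C i) (low W P i) ∧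
      C i ⊔ low W P i = W i.1 ⊓ P i.2) : iSupIndep C := by
  classical
  refine iSupIndep_of_dfinsupp_lsum_injective C ?_
  rw [← LinearMap.ker_eq_bot, LinearMap.ker_eq_bot']
  intro f hf
  rw [DFinsupp.lsum_apply_apply, DFinsupp.sumAddHom_apply, DFinsupp.sum] at hf
  have h1 := indep hW hP hC f.support.card f.support (fun i => (f i : V)) rfl
    (fun i _ => (f i).2) (by simpa using hf)
  ext i
  by_cases hi : i ∈ f.support
  · simpa using h1 i hi
  · rw [DFinsupp.notMem_support_iff] at hi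
    simp [hi]

theorem span_low {C : ℕ × ℕ → Submodule K V}
    (hC : ∀ i, C i ≤ W i.1 ⊓ P i.2 ∧ Disjoint (C i) (low W P i) ∧
      C i ⊔ low W P i = W i.1 ⊓ P i.2) :
    ∀ n a b, a + b = n → W a ⊓ P b ≤ ⨆ i : ℕ × ℕ, ⨆ _ : i.1 ≤ a ∧ i.2 ≤ b, C i := by
  intro n
  induction n with
  | zero =>
    intro a b h
    have ha : a = 0 := by omega
    have hb : b = 0 := by omega
    subst ha hb
    have h1 := (hC (0, 0)).2.2
    rw [← h1]
    refine sup_le (le_iSup₂_of_le (0, 0) ⟨le_rfl, le_rfl⟩ le_rfl) ?_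
    simp [low, prev]
  | succ n ih =>
    intro a b h
    have h1 := (hC (a, b)).2.2
    change _ = W a ⊓ P b at h1
    rw [← h1]
    refine sup_le (le_iSup₂_of_le (a, b) ⟨le_rfl, le_rfl⟩ le_rfl) (sup_le ?_ ?_)
    · cases a with
      | zero => simp [prev]
      | succ a =>
        change W a ⊓ P b ≤ _
        refine (ih a b (by omega)).trans (iSup_mono fun i => iSup_mono' fun hi => ?_)
        exact ⟨⟨hi.1.trans (Nat.le_succ a), hi.2⟩, le_rfl⟩
    · cases b with
      | zero => simp [prev]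
      | succ b =>
        change W a ⊓ P b ≤ _
        refine (ih a b (by omega)).trans (iSup_mono fun i => iSup_mono' fun hi => ?_)
        exact ⟨⟨hi.1, hi.2.trans (Nat.le_succ b)⟩, le_rfl⟩

/-- two filtrations have a common adapted basis -/
theorem exists_adapted (hW : Monotone W) (hP : Monotone P) (tW : ∃ n, W n = ⊤)
    (tP : ∃ n, P n = ⊤) :
    ∃ (ι : Type v) (b : Basis ι K V) (w p : ι → ℕ), Adapted W P b w p := by
  obtain ⟨C, hC⟩ := exists_compl hW hP
  obtain ⟨n, hn⟩ := tW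
  obtain ⟨m, hm⟩ := tP
  have htop : iSup C = ⊤ := by
    rw [eq_top_iff]
    have h1 := span_low hC (n + m) n m rfl
    rw [hn, hm, inf_top_eq] at h1
    exact h1.trans (iSup_mono fun i => iSup_le fun _ => le_rfl)
  have hint : DirectSum.IsInternal C :=
    DirectSum.isInternal_submodule_of_iSupIndep_of_iSup_eq_top (indep' hW hP hC) htop
  let v : ∀ i, Basis (Basis.ofVectorSpaceIndex K (C i)) K (C i) := fun i =>
    Basis.ofVectorSpace K (C i)
  let b := hint.collectedBasis v
  have hU : ∀ (S : Set (ℕ × ℕ)) (x : V), x ∈ (⨆ i ∈ S, C i) → ∀ j, b.repr x j ≠ 0 → j.1 ∈ S := by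
    intro S x hx
    have h1 : (⨆ i ∈ S, C i) ≤ Submodule.span K (b '' {j | j.1 ∈ S}) := by
      refine iSup₂_le fun i hi y hy => ?_
      rw [b.mem_span_image]
      intro j hj
      by_contra hjS
      have hne : i ≠ j.1 := fun h => hjS (by rw [Set.mem_setOf_eq, ← h]; exact hi)
      have h2 := hint.collectedBasis_repr_of_mem_ne v hne (a := j.2) hy
      exact (Finsupp.mem_support_iff.1 hj) h2
    have h3 := b.mem_span_image.1 (h1 hx)
    intro j hj
    exact h3 (Finsupp.mem_support_iff.2 hj)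
  have hb : ∀ j, b j ∈ C j.1 := fun j => hint.collectedBasis_mem v j
  refine ⟨_, b, fun j => (Sigma.fst j).1, fun j => (Sigma.fst j).2, ⟨?_, ?_⟩⟩
  · intro k x
    constructor
    · intro hx j hj
      have h1 : x ∈ W k ⊓ P m := ⟨hx, by rw [hm]; trivial⟩
      have h2 := span_low hC (k + m) k m rfl h1
      exact (hU {i | i.1 ≤ k ∧ i.2 ≤ m} x h2 j hj).1
    · intro h
      rw [← b.linearCombination_repr x, Finsupp.linearCombination_apply, Finsupp.sum]
      refine Submodule.sum_mem _ fun j hj => Submodule.smul_mem _ _ ?_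
      exact hW (h j (Finsupp.mem_support_iff.1 hj)) ((hC j.1).1 (hb j)).1
  · intro k x
    constructor
    · intro hx j hj
      have h1 : x ∈ W n ⊓ P k := ⟨by rw [hn]; trivial, hx⟩
      have h2 := span_low hC (n + k) n k rfl h1
      exact (hU {i | i.1 ≤ n ∧ i.2 ≤ k} x h2 j hj).2
    · intro h
      rw [← b.linearCombination_repr x, Finsupp.linearCombination_apply, Finsupp.sum]
      refine Submodule.sum_mem _ fun j hj => Submodule.smul_mem _ _ ?_
      exact hP (h j (Finsupp.mem_support_iff.1 hj)) ((hC j.1).1 (hb j)).2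

end Pool.Agent.W5h23.PW
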