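import Pool.Agent.W5h23.PW.Tens

/-!
# The two filtrations on the intersection cohomology of the moduli spaces `M(X, G)`
-/

set_option autoImplicit false

open Module TensorProduct

namespace Pool.Agent.W5h23.PW

/-- For a fixed smooth projective variety `X`: `𝔾` is a class of reductive groups closed under
products `G * G'`. `IH G` is the intersection cohomology of `M_B(X, G)` (rational coefficients, all
degrees together), `W G` its weight filtration, `P G` the perverse Leray filtration of `M_D(X, G)`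
transported by `Ψ` (starting at zero). The fields are the known facts: both are increasing and
exhaustive, the class `1` lies in the steps `0`, and the Künneth isomorphism for
`M(X, G × G') = M(X, G) × M(X, G')` carries the tensor product filtrations to those of `G × G'`. -/
structure Theory (𝔾 : Type) [Mul 𝔾] where
  IH : 𝔾 → Type
  [grp : ∀ G, AddCommGroup (IH G)]
  [mod : ∀ G, Module ℚ (IH G)]
  [fin : ∀ G, Module.Finite ℚ (IH G)]
  W : ∀ G, ℕ → Submodule ℚ (IH G)
  P : ∀ G, ℕ → Submodule ℚ (IH G)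
  monoW : ∀ G, Monotone (W G)
  monoP : ∀ G, Monotone (P G)
  topW : ∀ G, ∃ n, W G n = ⊤
  topP : ∀ G, ∃ n, P G n = ⊤
  one : ∀ G, ∃ x, x ≠ 0 ∧ x ∈ W G 0 ∧ x ∈ P G 0
  kunneth : ∀ G G', ∃ e : IH G ⊗[ℚ] IH G' ≃ₗ[ℚ] IH (G * G'),
    (∀ k, W (G * G') k = (conv (W G) (W G') k).map (e : IH G ⊗[ℚ] IH G' →ₗ[ℚ] IH (G * G'))) ∧
    ∀ k, P (G * G') k = (conv (P G) (P G') k).map (e : IH G ⊗[ℚ] IH G' →ₗ[ℚ] IH (G * G'))

attribute [instance] Theory.grp Theory.mod Theory.fin

variable {𝔾 : Type} [Mul 𝔾] (T : Theory 𝔾)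

/-- the statement of Q1 for `G` -/
def Theory.Q1 (G : 𝔾) : Prop := ∀ k, T.W G (2 * k + 1) = T.W G (2 * k)

/-- the statement of Q2 for `G` -/
def Theory.Q2 (G : 𝔾) : Prop := ∀ k, T.W G (2 * k) = T.P G k

/-- the two filtrations agree up to a shift by `e` steps -/
def Theory.Close (G : 𝔾) (e : ℕ) : Prop :=
  ∀ k, T.W G (2 * k) ≤ T.P G (k + e) ∧ T.P G k ≤ T.W G (2 * (k + e))

/-- the dimension of the intersection cohomology -/
noncomputable def Theory.dim (G : 𝔾) : ℝ := finrank ℚ (T.IH G)

/-- the dimension of the part of odd weight: the sum of `dim gr^W_a gr^P_b` over odd `a` -/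
noncomputable def Theory.odd (G : 𝔾) : ℝ :=
  tot (T.W G) (T.P G) fun a _ => if Odd a then 1 else 0

/-- the dimension of the part where the filtrations agree: the sum of `dim gr^W_{2b} gr^P_b` -/
noncomputable def Theory.agree (G : 𝔾) : ℝ :=
  tot (T.W G) (T.P G) fun a b => if a = 2 * b then 1 else 0

/-- the displacement: the sum of `|a - 2 b| dim gr^W_a gr^P_b` -/
noncomputable def Theory.disp (G : 𝔾) : ℝ :=
  tot (T.W G) (T.P G) fun a b => |(a : ℝ) - 2 * b|

/-- `pw G m` is the product of `m + 1` copies of `G` -/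
def pw {𝔾 : Type} [Mul 𝔾] (G : 𝔾) : ℕ → 𝔾
  | 0 => G
  | m + 1 => pw G m * G

end Pool.Agent.W5h23.PW
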