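import Pool.Agent.W5h23.PW.Defs
import Pool.Agent.W5h23.PW.AC

/-!
# `P = W` on powers of a group
-/

set_option autoImplicit false

open Module TensorProduct Finset

namespace Pool.Agent.W5h23.PW

/-- a basis adapted to both filtrations of `G` -/
structure Data {𝔾 : Type} [Mul 𝔾] (T : Theory 𝔾) (G : 𝔾) (ι : Type) [Fintype ι] where
  b : Basis ι ℚ (T.IH G)
  w : ι → ℕ
  p : ι → ℕ
  ad : Adapted (T.W G) (T.P G) b w p

variable {𝔾 : Type} [Mul 𝔾] {T : Theory 𝔾}

theorem exists_data (T : Theory 𝔾) (G : 𝔾) :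
    ∃ (ι : Type) (h : Fintype ι), Nonempty (@Data _ _ T G ι h) := by
  obtain ⟨ι, b, w, p, h⟩ := exists_adapted (T.monoW G) (T.monoP G) (T.topW G) (T.topP G)
  letI : Fintype ι := FiniteDimensional.fintypeBasisIndex b
  exact ⟨ι, inferInstance, ⟨⟨b, w, p, h⟩⟩⟩

/-- the data of a product -/
theorem prod_data {G G' : 𝔾} {ι ι' : Type} [Fintype ι] [Fintype ι'] (D : Data T G ι)
    (D' : Data T G' ι') : ∃ E : Data T (G * G') (ι × ι'),
      (∀ x, E.w x = D.w x.1 + D'.w x.2) ∧ ∀ x, E.p x = D.p x.1 + D'.p x.2 := by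
  obtain ⟨e, hW, hP⟩ := T.kunneth G G'
  have h1 := adapted_map (adapted_conv D.ad D'.ad) e
  refine ⟨⟨(D.b.tensorProduct D'.b).map e, fun x => D.w x.1 + D'.w x.2,
    fun x => D.p x.1 + D'.p x.2, ?_⟩, fun x => rfl, fun x => rfl⟩
  constructor
  · intro k x
    rw [hW]
    exact h1.memW k x
  · intro k x
    rw [hP]
    exact h1.memP k x

namespace Data

variable {G : 𝔾} {ι : Type} [Fintype ι] (D : Data T G ι)

theorem mem_W (i : ι) (k : ℕ) : D.b i ∈ T.W G k ↔ D.w i ≤ k := by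
  classical
  rw [D.ad.memW]
  constructor
  · intro h
    exact h i (by rw [Basis.repr_self, Finsupp.single_eq_same]; exact one_ne_zero)
  · intro h j hj
    by_cases hij : i = j
    · rw [← hij]
      exact h
    · rw [Basis.repr_self, Finsupp.single_apply, if_neg hij] at hj
      exact absurd rfl hj

theorem mem_P (i : ι) (k : ℕ) : D.b i ∈ T.P G k ↔ D.p i ≤ k := by
  classical
  rw [D.ad.memP]
  constructor
  · intro h
    exact h i (by rw [Basis.repr_self, Finsupp.single_eq_same]; exact one_ne_zero)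
  · intro h j hj
    by_cases hij : i = j
    · rw [← hij]
      exact h
    · rw [Basis.repr_self, Finsupp.single_apply, if_neg hij] at hj
      exact absurd rfl hj

theorem exists_unit : ∃ i, D.w i = 0 ∧ D.p i = 0 := by
  obtain ⟨x, hx, hW, hP⟩ := T.one G
  have h1 : D.b.repr x ≠ 0 := fun h => hx (by simpa using h)
  obtain ⟨i, hi⟩ := Finsupp.ne_iff.1 h1
  rw [Finsupp.zero_apply] at hi
  exact ⟨i, Nat.le_zero.1 ((D.ad.memW 0 x).1 hW i hi), Nat.le_zero.1 ((D.ad.memP 0 x).1 hP i hi)⟩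

theorem q1_iff : T.Q1 G ↔ ∀ i, Even (D.w i) := by
  constructor
  · intro h i
    by_contra hodd
    rw [Nat.not_even_iff_odd] at hodd
    obtain ⟨k, hk⟩ := hodd
    have h1 : D.b i ∈ T.W G (2 * k + 1) := (D.mem_W i _).2 hk.le
    rw [h k, D.mem_W] at h1
    omega
  · intro h k
    refine le_antisymm ?_ (T.monoW G (Nat.le_succ _))
    intro x hx
    rw [D.ad.memW] at hx ⊢
    intro i hi
    have h1 := hx i hi
    obtain ⟨l, hl⟩ := h i
    omega

theorem q2_iff : T.Q2 G ↔ ∀ i, D.p i = (D.w i + 1) / 2 := by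
  constructor
  · intro h i
    have h1 : D.b i ∈ T.W G (2 * ((D.w i + 1) / 2)) := (D.mem_W i _).2 (by omega)
    rw [h, D.mem_P] at h1
    have h2 : D.b i ∈ T.P G (D.p i) := (D.mem_P i _).2 le_rfl
    rw [← h, D.mem_W] at h2
    omega
  · intro h k
    ext x
    rw [D.ad.memW, D.ad.memP]
    refine forall_congr' fun i => imp_congr_right fun _ => ?_
    rw [h i]
    omega

theorem q12_iff : (T.Q1 G ∧ T.Q2 G) ↔ ∀ i, D.w i = 2 * D.p i := by
  rw [D.q1_iff, D.q2_iff]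
  constructor
  · rintro ⟨h1, h2⟩ i
    obtain ⟨k, hk⟩ := h1 i
    have := h2 i
    omega
  · intro h
    refine ⟨fun i => ?_, fun i => ?_⟩
    · rw [h i]
      exact even_two_mul _
    · have := h i
      omega

theorem close_le {e : ℕ} (h : T.Close G e) (i : ι) :
    D.w i ≤ 2 * D.p i + 2 * e ∧ 2 * D.p i ≤ D.w i + 1 + 2 * e := by
  have h1 : D.b i ∈ T.W G (2 * ((D.w i + 1) / 2)) := (D.mem_W i _).2 (by omega)
  have h2 := (h ((D.w i + 1) / 2)).1 h1
  rw [D.mem_P] at h2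
  have h3 : D.b i ∈ T.P G (D.p i) := (D.mem_P i _).2 le_rfl
  have h4 := (h (D.p i)).2 h3
  rw [D.mem_W] at h4
  constructor <;> omega

include D in
theorem dim_eq : T.dim G = Fintype.card ι := by
  rw [Theory.dim, finrank_eq_card_basis D.b]

open Classical in
theorem odd_eq : T.odd G = ∑ i, (if Odd (D.w i) then (1 : ℝ) else 0) := by
  rw [Theory.odd, tot_eq D.ad]

open Classical in
theorem agree_eq : T.agree G = ∑ i, (if D.w i = 2 * D.p i then (1 : ℝ) else 0) := by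
  rw [Theory.agree, tot_eq D.ad]

theorem disp_eq : T.disp G = ∑ i, |(D.w i : ℝ) - 2 * D.p i| := by
  rw [Theory.disp, tot_eq D.ad]

/-- the displacement of a basis element -/
def d (i : ι) : ℤ := (D.w i : ℤ) - 2 * D.p i

end Data

/-- words of length `m + 1` -/
def Wd (ι : Type) : ℕ → Type
  | 0 => ι
  | m + 1 => Wd ι m × ι

instance fintypeWd (ι : Type) [Fintype ι] : ∀ m, Fintype (Wd ι m)
  | 0 => inferInstanceAs (Fintype ι)
  | m + 1 => @instFintypeProd _ _ (fintypeWd ι m) _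

/-- the sum of a function along a word -/
def sm {ι : Type} (w : ι → ℕ) : (m : ℕ) → Wd ι m → ℕ
  | 0, i => w i
  | m + 1, x => sm w m x.1 + w x.2

/-- the constant word -/
def cst {ι : Type} (i : ι) : (m : ℕ) → Wd ι m
  | 0 => i
  | m + 1 => (cst i m, i)

theorem sm_cst {ι : Type} (w : ι → ℕ) (i : ι) (m : ℕ) : sm w m (cst i m) = (m + 1) * w i := by
  induction m with
  | zero => simp [sm, cst]
  | succ m ih =>
    change sm w m (cst i m) + w i = _
    rw [ih]
    ring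

theorem card_Wd (ι : Type) [Fintype ι] (m : ℕ) :
    Fintype.card (Wd ι m) = Fintype.card ι ^ (m + 1) := by
  induction m with
  | zero =>
    rw [zero_add, pow_one]
    rfl
  | succ m ih =>
    rw [pow_succ, ← ih]
    exact Fintype.card_prod _ _

theorem pow_data {G : 𝔾} {ι : Type} [Fintype ι] (D : Data T G ι) (m : ℕ) :
    ∃ E : Data T (pw G m) (Wd ι m), (∀ x, E.w x = sm D.w m x) ∧ ∀ x, E.p x = sm D.p m x := by
  induction m with
  | zero => exact ⟨D, fun x => rfl, fun x => rfl⟩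
  | succ m ih =>
    obtain ⟨E, h1, h2⟩ := ih
    obtain ⟨F, h3, h4⟩ := prod_data E D
    exact ⟨F, fun x => (h3 x).trans (congrArg (· + D.w x.2) (h1 x.1)),
      fun x => (h4 x).trans (congrArg (· + D.p x.2) (h2 x.1))⟩

/-- the products -/
theorem q1_mul (G G' : 𝔾) : T.Q1 (G * G') ↔ T.Q1 G ∧ T.Q1 G' := by
  obtain ⟨ι, _, ⟨D⟩⟩ := exists_data T G
  obtain ⟨ι', _, ⟨D'⟩⟩ := exists_data T G'
  obtain ⟨E, h1, h2⟩ := prod_data D D'
  rw [D.q1_iff, D'.q1_iff, E.q1_iff]
  obtain ⟨u, hu, _⟩ := D.exists_unit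
  obtain ⟨u', hu', _⟩ := D'.exists_unit
  constructor
  · intro h
    refine ⟨fun i => ?_, fun j => ?_⟩
    · have := h (i, u')
      rw [h1, hu'] at this
      exact this
    · have := h (u, j)
      rw [h1, hu, zero_add] at this
      exact this
  · rintro ⟨h, h'⟩ x
    rw [h1]
    exact (h _).add (h' _)

theorem q2_mul (G G' : 𝔾) : T.Q2 (G * G') ↔ T.Q2 G ∧ T.Q2 G' ∧ (T.Q1 G ∨ T.Q1 G') := by
  obtain ⟨ι, _, ⟨D⟩⟩ := exists_data T G
  obtain ⟨ι', _, ⟨D'⟩⟩ := exists_data T G'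
  obtain ⟨E, h1, h2⟩ := prod_data D D'
  rw [D.q1_iff, D'.q1_iff, D.q2_iff, D'.q2_iff, E.q2_iff]
  obtain ⟨u, hu, hp⟩ := D.exists_unit
  obtain ⟨u', hu', hp'⟩ := D'.exists_unit
  constructor
  · intro h
    refine ⟨fun i => ?_, fun j => ?_, ?_⟩
    · have := h (i, u')
      rw [h1, h2, hu', hp'] at this
      exact this
    · have := h (u, j)
      rw [h1, h2, hu, hp, zero_add, zero_add] at this
      exact this
    · by_contra hcon
      push Not at hcon
      obtain ⟨⟨i, hi⟩, ⟨j, hj⟩⟩ := hcon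
      have a1 := h (i, u')
      have a2 := h (u, j)
      have a3 := h (i, j)
      rw [h1, h2] at a1 a2 a3
      simp only [hu', hp', hu, hp] at a1 a2 a3
      rw [Nat.not_even_iff_odd] at hi hj
      obtain ⟨k, hk⟩ := hi
      obtain ⟨l, hl⟩ := hj
      omega
  · rintro ⟨h, h', h3⟩ x
    rw [h1, h2]
    have a1 := h x.1
    have a2 := h' x.2
    rcases h3 with h3 | h3
    · obtain ⟨k, hk⟩ := h3 x.1
      omega
    · obtain ⟨k, hk⟩ := h3 x.2
      omega

theorem q12_mul (G G' : 𝔾) :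
    (T.Q1 (G * G') ∧ T.Q2 (G * G')) ↔ (T.Q1 G ∧ T.Q2 G) ∧ T.Q1 G' ∧ T.Q2 G' := by
  rw [q1_mul, q2_mul]
  tauto

theorem q12_pow {G : 𝔾} (h : T.Q1 G ∧ T.Q2 G) (m : ℕ) : T.Q1 (pw G m) ∧ T.Q2 (pw G m) := by
  induction m with
  | zero => exact h
  | succ m ih => exact (q12_mul _ _).2 ⟨ih, h⟩

theorem q1_pow {G : 𝔾} (h : T.Q1 G) (m : ℕ) : T.Q1 (pw G m) := by
  induction m with
  | zero => exact h
  | succ m ih => exact (q1_mul _ _).2 ⟨ih, h⟩

theorem close_of_q12 {G : 𝔾} (h : T.Q1 G ∧ T.Q2 G) (e : ℕ) : T.Close G e := by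
  intro k
  rw [h.2 k, h.2 (k + e)]
  exact ⟨T.monoP G (Nat.le_add_right k e), T.monoP G (Nat.le_add_right k e)⟩

/-- an approximate form on one power suffices -/
theorem q12_of_close {G : 𝔾} {m E : ℕ} (hE : 2 * E < m) (h : T.Close (pw G m) E) :
    T.Q1 G ∧ T.Q2 G := by
  obtain ⟨ι, _, ⟨D⟩⟩ := exists_data T G
  obtain ⟨F, h1, h2⟩ := pow_data D m
  rw [D.q12_iff]
  intro i
  have h3 := F.close_le h (cst i m)
  rw [h1, h2, sm_cst, sm_cst] at h3
  rcases Nat.lt_trichotomy (D.w i) (2 * D.p i) with h4 | h4 | h4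
  · exfalso
    have h5 : (m + 1) * (D.w i + 1) ≤ (m + 1) * (2 * D.p i) := Nat.mul_le_mul_left _ h4
    have h6 : (m + 1) * (D.w i + 1) = (m + 1) * D.w i + (m + 1) := by ring
    have h7 : (m + 1) * (2 * D.p i) = 2 * ((m + 1) * D.p i) := by ring
    omega
  · exact h4
  · exfalso
    have h5 : (m + 1) * (2 * D.p i + 1) ≤ (m + 1) * D.w i := Nat.mul_le_mul_left _ h4
    have h6 : (m + 1) * (2 * D.p i + 1) = 2 * ((m + 1) * D.p i) + (m + 1) := by ring
    omega

end Pool.Agent.W5h23.PW
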