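import Pool.Agent.W5h23.PW.Main

/-!
# Averages over powers of a group
-/

set_option autoImplicit false

open Module TensorProduct Finset Filter Topology

namespace Pool.Agent.W5h23.PW

/-- the displacement of a word -/
def dm {ι : Type} (w p : ι → ℕ) (m : ℕ) (x : Wd ι m) : ℤ := (sm w m x : ℤ) - 2 * sm p m x

theorem gen_pow {ι : Type} [Fintype ι] (w p : ι → ℕ) (m : ℕ) :
    gen univ (fun i => (w i : ℤ) - 2 * p i) ^ (m + 1) = gen univ (dm w p m) := by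
  induction m with
  | zero =>
    rw [zero_add, pow_one]
    rfl
  | succ m ih =>
    rw [pow_succ, ih]
    change (∑ x : Wd ι m, AddMonoidAlgebra.single (dm w p m x) (1 : ℝ)) *
      (∑ i : ι, AddMonoidAlgebra.single ((w i : ℤ) - 2 * p i) (1 : ℝ)) =
      ∑ x : Wd ι m × ι, AddMonoidAlgebra.single (dm w p (m + 1) x) (1 : ℝ)
    rw [sum_mul_sum, Fintype.sum_prod_type]
    refine sum_congr rfl fun x _ => sum_congr rfl fun i _ => ?_
    rw [AddMonoidAlgebra.single_mul_single, one_mul]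
    congr 1
    change _ = ((sm w m x + w i : ℕ) : ℤ) - 2 * ((sm p m x + p i : ℕ) : ℤ)
    rw [dm]
    push_cast
    ring

theorem gen_coeff {κ : Type} [Fintype κ] (f : κ → ℤ) (t : ℤ) :
    (gen univ f).coeff t = ∑ x, if f x = t then (1 : ℝ) else 0 := by
  rw [gen, AddMonoidAlgebra.coeff_sum, Finsupp.finsetSum_apply]
  refine sum_congr rfl fun x _ => ?_
  rw [AddMonoidAlgebra.coeff_single, Finsupp.single_apply]

/-- the anticoncentration of the displacement of words -/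
theorem dm_le {ι : Type} [Fintype ι] (w p : ι → ℕ) {u j : ι} (hu : (w u : ℤ) - 2 * p u = 0)
    (hj : (w j : ℤ) - 2 * p j ≠ 0) (m : ℕ) (t : ℤ) :
    (∑ x : Wd ι m, if dm w p m x = t then (1 : ℝ) else 0) ≤
      Real.sqrt (Fintype.card ι / (2 * ((m : ℝ) + 2))) * (Fintype.card ι : ℝ) ^ (m + 1) := by
  have h1 := coeff_pow_le (fun i => (w i : ℤ) - 2 * p i) (i := u) (j := j)
    (by rw [hu]; exact hj.symm) (m + 1) t
  rw [gen_pow, gen_coeff] at h1
  refine h1.trans (le_of_eq ?_)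
  rw [mul_comm]
  push_cast
  congr 4
  ring

variable {𝔾 : Type} [Mul 𝔾] {T : Theory 𝔾}

theorem dim_pos (G : 𝔾) : 0 < T.dim G := by
  obtain ⟨ι, _, ⟨D⟩⟩ := exists_data T G
  obtain ⟨u, _⟩ := D.exists_unit
  rw [D.dim_eq]
  exact_mod_cast Fintype.card_pos_iff.2 ⟨u⟩

theorem dim_pw (G : 𝔾) (m : ℕ) : T.dim (pw G m) = T.dim G ^ (m + 1) := by
  obtain ⟨ι, _, ⟨D⟩⟩ := exists_data T G
  obtain ⟨E, _⟩ := pow_data D m
  rw [D.dim_eq, E.dim_eq, card_Wd]
  push_cast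
  rfl

theorem exists_bad {G : 𝔾} {ι : Type} [Fintype ι] (D : Data T G ι) (h : ¬ (T.Q1 G ∧ T.Q2 G)) :
    ∃ u j, (D.w u : ℤ) - 2 * D.p u = 0 ∧ (D.w j : ℤ) - 2 * D.p j ≠ 0 := by
  rw [D.q12_iff] at h
  push Not at h
  obtain ⟨j, hj⟩ := h
  obtain ⟨u, hu, hp⟩ := D.exists_unit
  refine ⟨u, j, ?_, ?_⟩
  · rw [hu, hp]
    simp
  · intro h0
    apply hj
    omega

theorem agree_le {G : 𝔾} (h : ¬ (T.Q1 G ∧ T.Q2 G)) (m : ℕ) :
    T.agree (pw G m) ≤ Real.sqrt (T.dim G / (2 * ((m : ℝ) + 2))) * T.dim (pw G m) := by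
  obtain ⟨ι, _, ⟨D⟩⟩ := exists_data T G
  obtain ⟨u, j, hu, hj⟩ := exists_bad D h
  obtain ⟨E, hw, hp⟩ := pow_data D m
  rw [dim_pw, D.dim_eq, E.agree_eq]
  refine le_trans (le_of_eq ?_) (dm_le D.w D.p hu hj m 0)
  refine sum_congr rfl fun x _ => ?_
  rw [hw, hp, dm]
  refine if_congr ?_ rfl rfl
  omega

theorem disp_nonneg (G : 𝔾) : 0 ≤ T.disp G := by
  obtain ⟨ι, _, ⟨D⟩⟩ := exists_data T G
  rw [D.disp_eq]
  exact sum_nonneg fun i _ => abs_nonneg _

theorem le_disp {G : 𝔾} (h : ¬ (T.Q1 G ∧ T.Q2 G)) (m : ℕ) (hm : 8 * T.dim G ≤ (m : ℝ) + 2) :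
    Real.sqrt (2 * ((m : ℝ) + 2) / T.dim G) / 16 * T.dim (pw G m) ≤ T.disp (pw G m) := by
  obtain ⟨ι, _, ⟨D⟩⟩ := exists_data T G
  obtain ⟨u, j, hu, hj⟩ := exists_bad D h
  obtain ⟨E, hw, hp⟩ := pow_data D m
  have hD := dim_pos (T := T) G
  have hdd := D.dim_eq
  set c : ℝ := T.dim G with hc
  set β : ℝ := Real.sqrt (c / (2 * ((m : ℝ) + 2))) with hβ
  have hβ0 : 0 < β := Real.sqrt_pos.2 (by positivity)
  have hβ2 : β ^ 2 = c / (2 * ((m : ℝ) + 2)) := Real.sq_sqrt (by positivity)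
  have hβ4 : β ≤ 1 / 4 := by
    rw [hβ]
    refine Real.sqrt_le_iff.2 ⟨by norm_num, ?_⟩
    rw [div_le_iff₀ (by positivity)]
    linarith
  have hinv : Real.sqrt (2 * ((m : ℝ) + 2) / c) = 1 / β := by
    rw [hβ, ← Real.sqrt_one, ← Real.sqrt_div zero_le_one, one_div_div]
  obtain ⟨t, ht1, ht2, ht3⟩ : ∃ t : ℕ, 1 ≤ t ∧ 1 / (8 * β) ≤ t ∧ (t : ℝ) < 1 / (8 * β) + 1 :=
    ⟨⌈1 / (8 * β)⌉₊, Nat.one_le_iff_ne_zero.2 (Nat.ceil_pos.2 (by positivity)).ne',
      Nat.le_ceil _, Nat.ceil_lt_add_one (by positivity)⟩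
  have hcard : ((Fintype.card (Wd ι m) : ℕ) : ℝ) = c ^ (m + 1) := by
    rw [card_Wd, hdd]
    push_cast
    rfl
  -- few words of small displacement
  have h1 : (∑ x : Wd ι m, if |dm D.w D.p m x| < t then (1 : ℝ) else 0) ≤
      (2 * t - 1) * (β * c ^ (m + 1)) := by
    have h2 : ∀ x : Wd ι m, (if |dm D.w D.p m x| < t then (1 : ℝ) else 0) =
        ∑ s ∈ Finset.Ioo (-(t : ℤ)) t, if dm D.w D.p m x = s then (1 : ℝ) else 0 := by
      intro x
      rw [Finset.sum_ite_eq]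
      refine if_congr ?_ rfl rfl
      rw [abs_lt, Finset.mem_Ioo]
    rw [sum_congr rfl fun x _ => h2 x, sum_comm]
    refine (sum_le_card_nsmul _ _ (β * c ^ (m + 1)) fun s _ => ?_).trans (le_of_eq ?_)
    · have h3 := dm_le D.w D.p hu hj m s
      rw [← hdd] at h3
      exact h3
    · rw [nsmul_eq_mul, Int.card_Ioo]
      congr 1
      have h3 : ((t : ℤ) - -(t : ℤ) - 1).toNat = 2 * t - 1 := by omega
      rw [h3, Nat.cast_sub (by omega)]
      push_cast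
      ring
  have h2 : (∑ x : Wd ι m, if |dm D.w D.p m x| < t then (1 : ℝ) else 0) ≤ 1 / 2 * c ^ (m + 1) := by
    refine h1.trans ?_
    rw [← mul_assoc]
    refine mul_le_mul_of_nonneg_right ?_ (by positivity)
    have h3 : (t : ℝ) * β ≤ 1 / 8 + β := by
      have h4 : (t : ℝ) * β ≤ (1 / (8 * β) + 1) * β := mul_le_mul_of_nonneg_right ht3.le hβ0.le
      have h5 : (1 / (8 * β) + 1) * β = 1 / 8 + β := by field_simp
      linarith
    nlinarith
  have h3 : ∀ x : Wd ι m, (t : ℝ) * (1 - if |dm D.w D.p m x| < t then (1 : ℝ) else 0) ≤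
      |(E.w x : ℝ) - 2 * E.p x| := by
    intro x
    have h4 : |(E.w x : ℝ) - 2 * E.p x| = ((|dm D.w D.p m x| : ℤ) : ℝ) := by
      rw [hw, hp, dm]
      push_cast
      rfl
    rw [h4]
    split_ifs with h5
    · rw [sub_self, mul_zero]
      exact_mod_cast abs_nonneg _
    · rw [sub_zero, mul_one]
      exact_mod_cast not_lt.1 h5
  have h4 : (t : ℝ) * (c ^ (m + 1) - 1 / 2 * c ^ (m + 1)) ≤ T.disp (pw G m) := by
    rw [E.disp_eq]
    refine le_trans ?_ (sum_le_sum fun x _ => h3 x)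
    rw [← mul_sum, sum_sub_distrib, sum_const, card_univ, nsmul_eq_mul, mul_one, hcard]
    exact mul_le_mul_of_nonneg_left (by linarith) (by positivity)
  rw [dim_pw, ← hc, hinv]
  refine le_trans ?_ h4
  have h5 : 1 / β / 16 * c ^ (m + 1) = 1 / (8 * β) * (c ^ (m + 1) - 1 / 2 * c ^ (m + 1)) := by
    field_simp
    ring
  rw [h5]
  refine mul_le_mul_of_nonneg_right ht2 ?_
  have : (0 : ℝ) < c ^ (m + 1) := by positivity
  linarith

/-- the sign sum of words -/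
theorem sign_sum {ι : Type} [Fintype ι] (w : ι → ℕ) (m : ℕ) :
    ∑ x : Wd ι m, (-1 : ℝ) ^ sm w m x = (∑ i, (-1 : ℝ) ^ w i) ^ (m + 1) := by
  induction m with
  | zero =>
    rw [zero_add, pow_one]
    rfl
  | succ m ih =>
    rw [pow_succ, ← ih]
    change ∑ x : Wd ι m × ι, (-1 : ℝ) ^ (sm w m x.1 + w x.2) = _
    rw [sum_mul_sum, Fintype.sum_prod_type]
    exact sum_congr rfl fun x _ => sum_congr rfl fun i _ => pow_add _ _ _

theorem ite_odd (n : ℕ) : (if Odd n then (1 : ℝ) else 0) = (1 - (-1) ^ n) / 2 := by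
  split_ifs with h
  · rw [h.neg_one_pow]
    norm_num
  · rw [Nat.not_odd_iff_even] at h
    rw [h.neg_one_pow]
    norm_num

theorem odd_tendsto {G : 𝔾} (h : ¬ T.Q1 G) :
    Tendsto (fun m => T.odd (pw G m) / T.dim (pw G m)) atTop (𝓝 (1 / 2)) := by
  obtain ⟨ι, _, ⟨D⟩⟩ := exists_data T G
  have hD := dim_pos (T := T) G
  have hdd := D.dim_eq
  set c : ℝ := T.dim G with hc
  set e : ℝ := ∑ i, (-1 : ℝ) ^ D.w i with he
  have h1 : ∀ m, T.odd (pw G m) / T.dim (pw G m) = 1 / 2 - (e / c) ^ (m + 1) / 2 := by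
    intro m
    obtain ⟨E, hw, hp⟩ := pow_data D m
    have h2 : T.odd (pw G m) = (c ^ (m + 1) - e ^ (m + 1)) / 2 := by
      rw [E.odd_eq]
      have h3 : ∀ x : Wd ι m, (if Odd (E.w x) then (1 : ℝ) else 0) =
          (1 - (-1) ^ sm D.w m x) / 2 := fun x => by
        rw [ite_odd, hw]
      rw [sum_congr rfl fun x _ => h3 x, ← sum_div, sum_sub_distrib, sign_sum, sum_const,
        card_univ, nsmul_eq_mul, mul_one, card_Wd, hdd]
      push_cast
      rfl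
    rw [h2, dim_pw, ← hc, div_pow]
    field_simp
  have hlt : |e| < c := by
    rw [D.q1_iff] at h
    push Not at h
    obtain ⟨j, hj⟩ := h
    rw [Nat.not_even_iff_odd] at hj
    obtain ⟨u, hu, _⟩ := D.exists_unit
    have hcs : c = ∑ _i : ι, (1 : ℝ) := by
      rw [hdd, sum_const, card_univ, nsmul_eq_mul, mul_one]
    rw [abs_lt]
    constructor
    · rw [he, hcs, ← sum_neg_distrib]
      refine sum_lt_sum (fun i _ => ?_) ⟨u, mem_univ u, ?_⟩
      · rcases neg_one_pow_eq_or ℝ (D.w i) with h2 | h2 <;> rw [h2] <;> norm_num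
      · rw [hu]
        norm_num
    · rw [he, hcs]
      refine sum_lt_sum (fun i _ => ?_) ⟨j, mem_univ j, ?_⟩
      · rcases neg_one_pow_eq_or ℝ (D.w i) with h2 | h2 <;> rw [h2] <;> norm_num
      · rw [hj.neg_one_pow]
        norm_num
  have h2 : |e / c| < 1 := by
    rw [abs_div, abs_of_pos hD, div_lt_one hD]
    exact hlt
  have h3 := (tendsto_pow_atTop_nhds_zero_of_abs_lt_one h2).comp (tendsto_add_atTop_nat 1)
  have h4 := (h3.div_const 2).const_sub (1 / 2)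
  rw [zero_div, sub_zero] at h4
  exact h4.congr fun m => (h1 m).symm

theorem odd_zero {G : 𝔾} (h : T.Q1 G) : T.odd G = 0 := by
  obtain ⟨ι, _, ⟨D⟩⟩ := exists_data T G
  rw [D.q1_iff] at h
  rw [D.odd_eq]
  exact sum_eq_zero fun i _ => if_neg (Nat.not_odd_iff_even.2 (h i))

theorem agree_eq_dim {G : 𝔾} (h : T.Q1 G ∧ T.Q2 G) : T.agree G = T.dim G := by
  obtain ⟨ι, _, ⟨D⟩⟩ := exists_data T G
  rw [D.q12_iff] at h
  rw [D.agree_eq, D.dim_eq, sum_congr rfl fun i _ => if_pos (h i), sum_const, card_univ,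
    nsmul_eq_mul, mul_one]

theorem disp_zero {G : 𝔾} (h : T.Q1 G ∧ T.Q2 G) : T.disp G = 0 := by
  obtain ⟨ι, _, ⟨D⟩⟩ := exists_data T G
  rw [D.q12_iff] at h
  rw [D.disp_eq]
  refine sum_eq_zero fun i _ => ?_
  rw [h i]
  push_cast
  rw [sub_self, abs_zero]

end Pool.Agent.W5h23.PW
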