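import Pool.Agent.W5h23.PW.Adapt

/-!
# Tensor products of filtrations, and counting with adapted bases
-/

set_option autoImplicit false

open Module TensorProduct

namespace Pool.Agent.W5h23.PW

universe u v v'

variable {K : Type u} {V : Type v} {V' : Type v'} [Field K] [AddCommGroup V] [Module K V]
  [AddCommGroup V'] [Module K V']

/-- the tensor product of two filtrations: the span of the `x ⊗ y` with `x` in step `i`, `y` in step
`j`, `i + j = k` -/
def conv (A : ℕ → Submodule K V) (B : ℕ → Submodule K V') (k : ℕ) : Submodule K (V ⊗[K] V') :=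
  ⨆ (i : ℕ) (j : ℕ) (_ : i + j = k), Submodule.map₂ (TensorProduct.mk K V V') (A i) (B j)

theorem conv_one {ι ι' : Type*} {A : ℕ → Submodule K V} {B : ℕ → Submodule K V'}
    {b : Basis ι K V} {b' : Basis ι' K V'} {w : ι → ℕ} {w' : ι' → ℕ}
    (h : ∀ k x, x ∈ A k ↔ ∀ i, b.repr x i ≠ 0 → w i ≤ k)
    (h' : ∀ k x, x ∈ B k ↔ ∀ i, b'.repr x i ≠ 0 → w' i ≤ k) (k : ℕ) (x : V ⊗[K] V') :
    x ∈ conv A B k ↔ ∀ i, (b.tensorProduct b').repr x i ≠ 0 → w i.1 + w' i.2 ≤ k := by
  classical
  constructor
  · have h1 : conv A B k ≤ Submodule.span K ((b.tensorProduct b') '' {i | w i.1 + w' i.2 ≤ k}) := by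
      refine iSup_le fun i => iSup_le fun j => iSup_le fun hij => ?_
      rw [Submodule.map₂_le]
      intro y hy z hz
      rw [Basis.mem_span_image]
      intro l hl
      have h2 := Finsupp.mem_support_iff.1 hl
      rw [TensorProduct.mk_apply, ← Prod.mk.eta (p := l),
        Basis.tensorProduct_repr_tmul_apply] at h2
      have h3 := (h i y).1 hy l.1 (fun h0 => h2 (by rw [h0, smul_zero]))
      have h4 := (h' j z).1 hz l.2 (fun h0 => h2 (by rw [h0, zero_smul]))
      change w l.1 + w' l.2 ≤ k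
      omega
    intro hx i hi
    exact (Basis.mem_span_image _).1 (h1 hx) (Finsupp.mem_support_iff.2 hi)
  · intro hx
    rw [← (b.tensorProduct b').linearCombination_repr x, Finsupp.linearCombination_apply,
      Finsupp.sum]
    refine Submodule.sum_mem _ fun l hl => Submodule.smul_mem _ _ ?_
    have h1 := hx l (Finsupp.mem_support_iff.1 hl)
    rw [Basis.tensorProduct_apply']
    refine Submodule.mem_iSup_of_mem (w l.1) (Submodule.mem_iSup_of_mem (k - w l.1)
      (Submodule.mem_iSup_of_mem (by omega) ?_))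
    refine Submodule.apply_mem_map₂ _ ?_ ?_
    · rw [h]
      intro i hi
      by_cases hil : i = l.1
      · rw [hil]
      · rw [Basis.repr_self, Finsupp.single_apply, if_neg (fun h0 => hil h0.symm)] at hi
        exact absurd rfl hi
    · rw [h']
      intro i hi
      by_cases hil : i = l.2
      · rw [hil]
        omega
      · rw [Basis.repr_self, Finsupp.single_apply, if_neg (fun h0 => hil h0.symm)] at hi
        exact absurd rfl hi

theorem map_one {ι : Type*} {A : ℕ → Submodule K V} {b : Basis ι K V} {w : ι → ℕ}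
    (h : ∀ k x, x ∈ A k ↔ ∀ i, b.repr x i ≠ 0 → w i ≤ k) (e : V ≃ₗ[K] V') (k : ℕ) (x : V') :
    x ∈ (A k).map (e : V →ₗ[K] V') ↔ ∀ i, (b.map e).repr x i ≠ 0 → w i ≤ k := by
  have h1 : x ∈ (A k).map (e : V →ₗ[K] V') ↔ e.symm x ∈ A k := by
    rw [Submodule.mem_map]
    constructor
    · rintro ⟨y, hy, rfl⟩
      simpa using hy
    · intro hx
      exact ⟨_, hx, by simp⟩
  rw [h1, h]
  rfl

theorem adapted_conv {ι ι' : Type*} {W P : ℕ → Submodule K V} {W' P' : ℕ → Submodule K V'}
    {b : Basis ι K V} {b' : Basis ι' K V'} {w p : ι → ℕ} {w' p' : ι' → ℕ}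
    (h : Adapted W P b w p) (h' : Adapted W' P' b' w' p') :
    Adapted (conv W W') (conv P P') (b.tensorProduct b') (fun i => w i.1 + w' i.2)
      (fun i => p i.1 + p' i.2) :=
  ⟨conv_one h.memW h'.memW, conv_one h.memP h'.memP⟩

theorem adapted_map {ι : Type*} {W P : ℕ → Submodule K V} {b : Basis ι K V} {w p : ι → ℕ}
    (h : Adapted W P b w p) (e : V ≃ₗ[K] V') :
    Adapted (fun k => (W k).map (e : V →ₗ[K] V')) (fun k => (P k).map (e : V →ₗ[K] V'))
      (b.map e) w p :=
  ⟨map_one h.memW e, map_one h.memP e⟩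

/-- the dimension of `gr^W_a gr^P_b` -/
noncomputable def mult (W P : ℕ → Submodule K V) (a b : ℕ) : ℕ :=
  finrank K (W a ⊓ P b : Submodule K V) -
    finrank K ((prev W a ⊓ P b) ⊔ (W a ⊓ prev P b) : Submodule K V)

/-- the sum of `dim (gr^W_a gr^P_b) · g a b` over all `a, b` -/
noncomputable def tot (W P : ℕ → Submodule K V) (g : ℕ → ℕ → ℝ) : ℝ :=
  ∑ᶠ ab : ℕ × ℕ, (mult W P ab.1 ab.2 : ℝ) * g ab.1 ab.2

section count

variable {ι : Type*} [Fintype ι] {W P : ℕ → Submodule K V} {b : Basis ι K V} {w p : ι → ℕ}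

theorem finrank_span_image (b : Basis ι K V) (S : Set ι) :
    finrank K (Submodule.span K (b '' S)) = S.ncard := by
  classical
  have h1 : b '' S = Set.range (fun i : S => b i) := by
    ext x
    simp
  have h2 := finrank_span_eq_card (b := fun i : S => b i)
    (b.linearIndependent.comp _ Subtype.val_injective)
  rw [h1, h2, ← Nat.card_eq_fintype_card]
  rfl

theorem mult_eq (hd : Adapted W P b w p) (a c : ℕ) :
    mult W P a c = {i | w i = a ∧ p i = c}.ncard := by
  have hW : ∀ k, W k = Submodule.span K (b '' {i | w i ≤ k}) := by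
    intro k
    ext x
    rw [hd.memW, Basis.mem_span_image]
    exact ⟨fun h i hi => h i (Finsupp.mem_support_iff.1 hi),
      fun h i hi => h (Finsupp.mem_support_iff.2 hi)⟩
  have hP : ∀ k, P k = Submodule.span K (b '' {i | p i ≤ k}) := by
    intro k
    ext x
    rw [hd.memP, Basis.mem_span_image]
    exact ⟨fun h i hi => h i (Finsupp.mem_support_iff.1 hi),
      fun h i hi => h (Finsupp.mem_support_iff.2 hi)⟩
  have hW' : ∀ k, prev W k = Submodule.span K (b '' {i | w i < k}) := by
    intro k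
    cases k with
    | zero => simp [prev]
    | succ k =>
      change W k = _
      rw [hW]
      congr 2
      ext i
      exact Nat.lt_succ_iff.symm
  have hP' : ∀ k, prev P k = Submodule.span K (b '' {i | p i < k}) := by
    intro k
    cases k with
    | zero => simp [prev]
    | succ k =>
      change P k = _
      rw [hP]
      congr 2
      ext i
      exact Nat.lt_succ_iff.symm
  have hI : ∀ S T : Set ι, Submodule.span K (b '' S) ⊓ Submodule.span K (b '' T) =
      Submodule.span K (b '' (S ∩ T)) := by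
    intro S T
    ext x
    rw [Submodule.mem_inf, Basis.mem_span_image, Basis.mem_span_image, Basis.mem_span_image,
      Set.subset_inter_iff]
  rw [mult, hW, hP, hW', hP', hI, hI, hI, ← Submodule.span_union, ← Set.image_union,
    finrank_span_image, finrank_span_image]
  have h1 : {i | w i = a ∧ p i = c} = ({i | w i ≤ a} ∩ {i | p i ≤ c}) \
      ({i | w i < a} ∩ {i | p i ≤ c} ∪ {i | w i ≤ a} ∩ {i | p i < c}) := by
    ext i
    change _ ↔ (w i ≤ a ∧ p i ≤ c) ∧ ¬ ((w i < a ∧ p i ≤ c) ∨ (w i ≤ a ∧ p i < c))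
    change w i = a ∧ p i = c ↔ _
    omega
  rw [h1, Set.ncard_diff _ (Set.toFinite _)]
  intro i hi
  change w i ≤ a ∧ p i ≤ c
  change (w i < a ∧ p i ≤ c) ∨ (w i ≤ a ∧ p i < c) at hi
  omega

open Classical in
theorem tot_eq (hd : Adapted W P b w p) (g : ℕ → ℕ → ℝ) :
    tot W P g = ∑ i, g (w i) (p i) := by
  rw [tot]
  have h1 : (Function.support fun ab : ℕ × ℕ => (mult W P ab.1 ab.2 : ℝ) * g ab.1 ab.2) ⊆
      ((Finset.univ.image fun i => (w i, p i) : Finset (ℕ × ℕ)) : Set (ℕ × ℕ)) := by
    intro ab hab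
    rw [Function.mem_support] at hab
    have h2 : mult W P ab.1 ab.2 ≠ 0 := fun h0 => hab (by rw [h0]; simp)
    rw [mult_eq hd] at h2
    obtain ⟨i, hi⟩ := Set.nonempty_of_ncard_ne_zero h2
    rw [Finset.mem_coe, Finset.mem_image]
    exact ⟨i, Finset.mem_univ _, Prod.ext hi.1 hi.2⟩
  rw [finsum_eq_sum_of_support_subset _ h1,
    ← Finset.sum_fiberwise_of_maps_to (s := Finset.univ)
      (t := Finset.univ.image fun i => (w i, p i)) (g := fun i => (w i, p i))
      (fun i _ => Finset.mem_image_of_mem _ (Finset.mem_univ i))]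
  refine Finset.sum_congr rfl fun ab _ => ?_
  rw [mult_eq hd]
  have h2 : {i | w i = ab.1 ∧ p i = ab.2}.ncard =
      (Finset.univ.filter fun i => (w i, p i) = ab).card := by
    rw [← Set.ncard_coe_finset]
    congr 1
    ext i
    rw [Finset.mem_coe, Finset.mem_filter, Prod.ext_iff]
    exact ⟨fun h => ⟨Finset.mem_univ _, h⟩, fun h => h.2⟩
  rw [h2, ← nsmul_eq_mul, ← Finset.sum_const]
  refine Finset.sum_congr rfl fun i hi => ?_
  have h3 := (Finset.mem_filter.1 hi).2
  rw [← h3]

end count

end Pool.Agent.W5h23.PW
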